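import Mathlib

set_option autoImplicit false

namespace Pool.Agent.Helper844.OL

/-- the run of consecutive residues modulo `N` starting at position `p` -/
def rn (N p l : ℕ) : List ℕ := (List.range l).map (fun i => (p + i) % N)

@[simp] theorem rn_length (N p l : ℕ) : (rn N p l).length = l := by simp [rn]

@[simp] theorem rn_zero (N p : ℕ) : rn N p 0 = [] := rfl

theorem rn_add (N p a b : ℕ) : rn N p (a + b) = rn N p a ++ rn N (p + a) b := by
  rw [rn, List.range_add, List.map_append, List.map_map]
  congr 1
  apply List.map_congr_left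
  intro i _
  simp [Nat.add_assoc]

theorem rn_succ (N p l : ℕ) : rn N p (l + 1) = (p % N) :: rn N (p + 1) l := by
  rw [Nat.add_comm l 1, rn_add]
  rfl

theorem rn_congr {N p p' : ℕ} (h : p % N = p' % N) (l : ℕ) : rn N p l = rn N p' l := by
  apply List.map_congr_left
  intro i _
  exact Nat.ModEq.add_right i h

theorem rn_mod (N p l : ℕ) : rn N (p % N) l = rn N p l := rn_congr (Nat.mod_mod _ _) l

theorem mem_rn_lt {N p l a : ℕ} (hN : 0 < N) (h : a ∈ rn N p l) : a < N := by
  rw [rn, List.mem_map] at h
  obtain ⟨i, -, rfl⟩ := h
  exact Nat.mod_lt _ hN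

theorem rn_head {N p p' l l' : ℕ} {s s' : List ℕ} (h : rn N p l ++ s = rn N p' l' ++ s')
    (hl : 0 < l) (hl' : 0 < l') : p % N = p' % N := by
  obtain ⟨l, rfl⟩ := Nat.exists_eq_succ_of_ne_zero hl.ne'
  obtain ⟨l', rfl⟩ := Nat.exists_eq_succ_of_ne_zero hl'.ne'
  rw [Nat.succ_eq_add_one, Nat.succ_eq_add_one, rn_succ, rn_succ] at h
  exact (List.cons.inj h).1

theorem rn_append {N p l : ℕ} {s s' : List ℕ} (h : rn N p l = s ++ s') :
    s = rn N p s.length ∧ s' = rn N (p + s.length) s'.length ∧ l = s.length + s'.length := by
  have hl : l = s.length + s'.length := by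
    have := congrArg List.length h
    simpa using this
  rw [hl, rn_add] at h
  have := List.append_inj h (by simp)
  exact ⟨this.1.symm, this.2.symm, hl⟩

/-- words derived in one step -/
inductive HV (Rl : ℕ → List ℕ → Prop) : List ℕ → List ℕ → Prop
  | nil : HV Rl [] []
  | cons {a : ℕ} {v w s : List ℕ} : Rl a w → HV Rl v s → HV Rl (a :: v) (w ++ s)

theorem hv_iff {Rl : ℕ → List ℕ → Prop} {v s : List ℕ} :
    HV Rl v s ↔ ∃ ws, List.Forall₂ Rl v ws ∧ s = ws.flatten := by
  constructor
  · intro h
    induction h with
    | nil => exact ⟨[], List.Forall₂.nil, rfl⟩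
    | @cons a v w s h1 h2 ih =>
      obtain ⟨ws, h3, rfl⟩ := ih
      exact ⟨w :: ws, List.Forall₂.cons h1 h3, rfl⟩
  · rintro ⟨ws, h, rfl⟩
    induction h with
    | nil => exact HV.nil
    | cons h1 h2 ih => exact HV.cons h1 ih

theorem hv_cons {Rl : ℕ → List ℕ → Prop} {a : ℕ} {v s : List ℕ} :
    HV Rl (a :: v) s ↔ ∃ w s', Rl a w ∧ HV Rl v s' ∧ s = w ++ s' := by
  constructor
  · intro h
    cases h with
    | cons h1 h2 => exact ⟨_, _, h1, h2, rfl⟩
  · rintro ⟨w, s', h1, h2, rfl⟩
    exact HV.cons h1 h2

theorem hv_append {Rl : ℕ → List ℕ → Prop} {v v' s s' : List ℕ} (h : HV Rl v s)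
    (h' : HV Rl v' s') : HV Rl (v ++ v') (s ++ s') := by
  induction h with
  | nil => exact h'
  | @cons a v w s h1 h2 ih =>
    rw [List.append_assoc]
    exact HV.cons h1 ih

theorem hv_append_inv {Rl : ℕ → List ℕ → Prop} {v v' t : List ℕ} (h : HV Rl (v ++ v') t) :
    ∃ s s', HV Rl v s ∧ HV Rl v' s' ∧ t = s ++ s' := by
  induction v generalizing t with
  | nil => exact ⟨[], t, HV.nil, h, rfl⟩
  | cons a v ih =>
    rw [List.cons_append, hv_cons] at h
    obtain ⟨w, s', h1, h2, rfl⟩ := h
    obtain ⟨s1, s2, h3, h4, rfl⟩ := ih h2
    exact ⟨w ++ s1, s2, HV.cons h1 h3, h4, by rw [List.append_assoc]⟩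

/-- the words that a history letter `x` may be replaced by -/
def Wd (N M : ℕ) (mode : ℕ → ℕ → Prop) (x : ℕ) (s : List ℕ) : Prop :=
  s.length ≤ M ∧ ((∃ r, s = r ++ [x] ∧ ∀ a ∈ r, a < N) ∨
    (s ≠ [] ∧ (∀ a ∈ s, a < N) ∧ ∀ p, s = rn N p s.length → p % 2 = 0 → mode (p % N) s.length))

/-- the first letter that is not a history letter is a residue, or it is the end letter -/
inductive Shape (N : ℕ) (isK : ℕ → Prop) (c : ℕ) : List ℕ → Prop
  | res {a : ℕ} {v : List ℕ} : a < N → Shape N isK c (a :: v)
  | endc : Shape N isK c [c]
  | cons {a : ℕ} {v : List ℕ} : isK a → Shape N isK c v → Shape N isK c (a :: v)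

/-- the answers that do not simulate the automaton -/
def Yes (N : ℕ) (Rl : ℕ → List ℕ → Prop) (v s : List ℕ) : Prop :=
  HV Rl v (rn N 0 2 ++ s) ∨ (∃ s', s = rn N 2 2 ++ s' ∧ HV Rl v s') ∨
  (∃ p s', s = p ++ s' ∧ p.length ≤ 4 ∧ (∀ a ∈ p, a < N) ∧
    rn N 0 2 ++ p ≠ rn N 0 (2 + p.length) ∧ HV Rl v s')

section

variable {N L M : ℕ} {isK : ℕ → Prop} {c : ℕ} {mode : ℕ → ℕ → ℕ → Prop}
  {Rl : ℕ → List ℕ → Prop}

theorem parity {N p p' : ℕ} (hN : 2 ∣ N) (h : p % N = p' % N) : p % 2 = p' % 2 := by
  have : p ≡ p' [MOD N] := h
  exact this.of_dvd hN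

/-- one letter of the shape: a bad word can be answered at once -/
theorem answer_bad (hN : 2 ∣ N) (hN6 : 6 ≤ N) (hM : 10 ≤ M) (x : ℕ) (hx : N ≤ x)
    (hR : ∀ w, Rl x w ↔ Wd N M (mode x) x w) (v w s : List ℕ) (hw : Wd N M (mode x) x w)
    (hv : HV Rl v s) (hbad : rn N 0 2 ++ w ≠ rn N 0 (2 + w.length)) :
    Yes N Rl (x :: v) (w ++ s) := by
  have hN0 : 0 < N := by omega
  obtain ⟨hlen, hw2⟩ := hw
  by_cases hl : w.length + 2 ≤ M
  · -- the lagging answer
    left
    rw [← List.append_assoc]
    refine HV.cons ((hR _).2 ⟨by simp; omega, ?_⟩) hv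
    rcases hw2 with ⟨r, rfl, hr⟩ | ⟨h1, h2, h3⟩
    · left
      refine ⟨rn N 0 2 ++ r, by rw [List.append_assoc], ?_⟩
      intro a ha
      rcases List.mem_append.1 ha with ha | ha
      · exact mem_rn_lt hN0 ha
      · exact hr a ha
    · right
      refine ⟨by simp [h1], ?_, ?_⟩
      · intro a ha
        rcases List.mem_append.1 ha with ha | ha
        · exact mem_rn_lt hN0 ha
        · exact h2 a ha
      · intro p hp _
        exfalso
        have hp' : rn N 0 2 ++ w = rn N p (2 + w.length) := by
          rw [hp]
          simp
        have h0 : 0 % N = p % N := by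
          rw [rn_add] at hp'
          exact rn_head hp' (by norm_num) (by norm_num)
        rw [hp', rn_congr h0] at hbad
        exact hbad rfl
  · -- a long word
    have hlen8 : 8 < w.length := by omega
    obtain ⟨w3, w', rfl, hw3⟩ : ∃ w3 w', w = w3 ++ w' ∧ w3.length = 3 :=
      ⟨w.take 3, w.drop 3, (List.take_append_drop 3 w).symm, by
        rw [List.length_take]; omega⟩
    rw [List.length_append] at hlen hlen8
    obtain ⟨y, w'', rfl⟩ : ∃ y w'', w' = y :: w'' := by
      cases w' with
      | nil => simp at hlen8; omega
      | cons y w'' => exact ⟨y, w'', rfl⟩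
    -- letters of the first part are residues
    have hw3N : ∀ a ∈ w3 ++ [y], a < N := by
      intro a ha
      rcases hw2 with ⟨r, hr1, hr⟩ | ⟨h1, h2, h3⟩
      · apply hr
        have : w3 ++ [y] <+: r := by
          have h4 : w3 ++ [y] <+: r ++ [x] := ⟨w'', by rw [← hr1]; simp⟩
          refine List.prefix_of_prefix_length_le h4 (List.prefix_append _ _) ?_
          have := congrArg List.length hr1
          simp at this hlen8 ⊢
          omega
        exact this.subset ha
      · apply h2
        rcases List.mem_append.1 ha with ha | ha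
        · exact List.mem_append_left _ ha
        · rw [List.mem_singleton] at ha
          rw [ha]
          simp
    by_cases h3 : w3 = rn N 2 3
    · -- the leading answer
      right; left
      have hsplit : w3 = rn N 2 2 ++ rn N 4 1 := by rw [h3, ← rn_add]
      refine ⟨(rn N 4 1 ++ y :: w'') ++ s, by rw [hsplit]; simp only [List.append_assoc], ?_⟩
      refine HV.cons ((hR _).2 ⟨by simp at hlen ⊢; omega, ?_⟩) hv
      rcases hw2 with ⟨r, hr1, hr⟩ | ⟨h1, h2, h4⟩
      · left
        have h5 : rn N 2 2 <+: r := by
          have h4 : rn N 2 2 <+: r ++ [x] := ⟨rn N 4 1 ++ y :: w'', by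
            rw [← hr1, hsplit]
            simp only [List.append_assoc]⟩
          refine List.prefix_of_prefix_length_le h4 (List.prefix_append _ _) ?_
          have := congrArg List.length hr1
          simp at this hlen8 ⊢
          omega
        obtain ⟨r', rfl⟩ := h5
        refine ⟨r', ?_, fun a ha => hr a (List.mem_append_right _ ha)⟩
        rw [hsplit, List.append_assoc, List.append_assoc] at hr1
        exact List.append_cancel_left hr1
      · right
        refine ⟨by simp, ?_, ?_⟩
        · intro a ha
          apply h2
          rw [hsplit, List.append_assoc]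
          exact List.mem_append_right _ ha
        · intro p hp _
          exfalso
          apply hbad
          have e1 : p % N = 4 % N := by
            have : rn N p 1 ++ rn N (p + 1) (y :: w'').length = rn N 4 1 ++ y :: w'' := by
              rw [← rn_add, hp]
              simp only [List.length_append, rn_length]
            exact rn_head this (by norm_num) (by norm_num)
          rw [rn_congr e1] at hp
          have hw : w3 ++ y :: w'' = rn N 2 (w3 ++ y :: w'').length := by
            have e2 : (w3 ++ y :: w'').length = 2 + (rn N 4 1 ++ y :: w'').length := by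
              simp only [List.length_append, rn_length, hw3]
              omega
            rw [e2, rn_add, ← hp, hsplit]
            simp only [List.append_assoc]
          rw [rn_add N 0 2, Nat.zero_add, ← hw]
    · -- the covering answer
      right; right
      have hb : ∀ p, w3 <+: p → rn N 0 2 ++ p ≠ rn N 0 (2 + p.length) := by
        rintro p ⟨p', rfl⟩ h
        rw [rn_add] at h
        have h5 := (List.append_inj h (by simp)).2
        rw [List.length_append, rn_add] at h5
        have h6 := (List.append_inj h5 (by simp)).1
        rw [hw3] at h6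
        exact h3 h6
      by_cases hev : ∃ p, p % 2 = 0 ∧ y :: w'' = rn N p (y :: w'').length
      · -- cut after four letters
        obtain ⟨p0, hp0, hp1⟩ := hev
        refine ⟨w3 ++ [y], w'' ++ s, by simp, by simp [hw3], hw3N, hb _ ⟨[y], rfl⟩, ?_⟩
        refine HV.cons ((hR _).2 ⟨by simp at hlen ⊢; omega, ?_⟩) hv
        rcases hw2 with ⟨r, hr1, hr⟩ | ⟨h1, h2, h4⟩
        · left
          have h5 : w3 ++ [y] <+: r := by
            have h4 : w3 ++ [y] <+: r ++ [x] := ⟨w'', by rw [← hr1]; simp⟩
            refine List.prefix_of_prefix_length_le h4 (List.prefix_append _ _) ?_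
            have := congrArg List.length hr1
            simp at this hlen8 ⊢
            omega
          obtain ⟨r', rfl⟩ := h5
          refine ⟨r', ?_, fun a ha => hr a (List.mem_append_right _ ha)⟩
          simp only [List.append_assoc, List.cons_append, List.nil_append] at hr1
          have := List.append_cancel_left hr1
          exact (List.cons.inj this).2
        · right
          refine ⟨?_, fun a ha => h2 a (by simp [ha]), ?_⟩
          · rintro rfl
            simp at hlen8
            omega
          · intro p hp hp2
            exfalso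
            rw [List.length_cons, rn_succ] at hp1
            have h6 := (List.cons.inj hp1).2
            have hl'' : 0 < w''.length := by simp at hlen8; omega
            have h7 : (p0 + 1) % N = p % N := by
              refine rn_head (s := []) (s' := []) (l := w''.length) (l' := w''.length) ?_ hl'' hl''
              rw [← h6, ← hp]
            have := parity hN h7
            omega
      · -- cut after three letters
        refine ⟨w3, (y :: w'') ++ s, by simp, by omega,
          fun a ha => hw3N a (List.mem_append_left _ ha), hb _ (List.prefix_refl _), ?_⟩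
        refine HV.cons ((hR _).2 ⟨by simp at hlen ⊢; omega, ?_⟩) hv
        rcases hw2 with ⟨r, hr1, hr⟩ | ⟨h1, h2, h4⟩
        · left
          have h5 : w3 <+: r := by
            have h4 : w3 <+: r ++ [x] := ⟨y :: w'', by rw [← hr1]⟩
            refine List.prefix_of_prefix_length_le h4 (List.prefix_append _ _) ?_
            have := congrArg List.length hr1
            simp at this hlen8 ⊢
            omega
          obtain ⟨r', rfl⟩ := h5
          refine ⟨r', ?_, fun a ha => hr a (List.mem_append_right _ ha)⟩
          rw [List.append_assoc] at hr1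
          exact List.append_cancel_left hr1
        · right
          refine ⟨by simp, fun a ha => h2 a (List.mem_append_right _ ha), ?_⟩
          intro p hp hp2
          exact absurd ⟨p, hp2, hp⟩ hev

theorem answer (hN : 2 ∣ N) (hN6 : 6 ≤ N) (hL : N ∣ L) (hL0 : 3 ≤ L) (hM : L + 10 ≤ M)
    (hc : N ≤ c) (hK : ∀ x, isK x → N ≤ x)
    (hres : ∀ a, a < N → ∀ w, Rl a w ↔ w ≠ [] ∧ (∀ x ∈ w, x < N) ∧ w.length ≤ M)
    (hRK : ∀ x, isK x → ∀ w, Rl x w ↔ Wd N M (mode x) x w)
    (hRc : ∀ w, Rl c w ↔ Wd N M (mode c) c w)
    (hm0 : ∀ x, isK x → mode x 0 L) (hm4 : ∀ x, isK x → mode x 4 L)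
    (hm2 : ∀ x, isK x → ∀ l, mode x 2 l → l = L) (hmc : ∀ l, mode c 2 l → l = L)
    (v s : List ℕ) (hsh : Shape N isK c v) (hs : HV Rl v s) :
    Yes N Rl v s ∨ (∃ w : List ℕ, (∀ x ∈ w, isK x) ∧ v = w ++ [c] ∧
      s = rn N 2 ((w.length + 1) * L)) := by
  have hN0 : 0 < N := by omega
  induction hsh generalizing s with
  | @res a v ha =>
    left
    obtain ⟨w, s', h1, h2, rfl⟩ := hv_cons.1 hs
    obtain ⟨h3, h4, h5⟩ := (hres a ha w).1 h1
    by_cases hl : w.length + 2 ≤ M
    · left
      rw [← List.append_assoc]
      refine HV.cons ((hres a ha _).2 ⟨by simp [h3], ?_, by simp; omega⟩) h2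
      intro x hx
      rcases List.mem_append.1 hx with hx | hx
      · exact mem_rn_lt hN0 hx
      · exact h4 x hx
    · right
      obtain ⟨w2, w', rfl, hw2⟩ : ∃ w2 w', w = w2 ++ w' ∧ w2.length = 2 :=
        ⟨w.take 2, w.drop 2, (List.take_append_drop 2 w).symm, by
          rw [List.length_take]; omega⟩
      rw [List.length_append] at h5 hl
      have hR' : Rl a w' := by
        refine (hres a ha _).2 ⟨?_, fun x hx => h4 x (List.mem_append_right _ hx), by omega⟩
        rintro rfl
        simp at hl
        omega
      by_cases h6 : w2 = rn N 2 2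
      · left
        refine ⟨w' ++ s', by rw [h6, List.append_assoc], HV.cons hR' h2⟩
      · right
        refine ⟨w2, w' ++ s', by rw [List.append_assoc], by omega,
          fun x hx => h4 x (List.mem_append_left _ hx), ?_, HV.cons hR' h2⟩
        intro h
        rw [rn_add] at h
        have h7 := (List.append_inj h (by simp)).2
        rw [hw2] at h7
        exact h6 h7
  | endc =>
    obtain ⟨w, s', h1, h2, rfl⟩ := hv_cons.1 hs
    have hw := (hRc w).1 h1
    cases h2
    by_cases hbad : rn N 0 2 ++ w ≠ rn N 0 (2 + w.length)
    · left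
      exact answer_bad hN hN6 (by omega) c hc hRc [] w [] hw HV.nil hbad
    · right
      push Not at hbad
      rw [rn_add, Nat.zero_add] at hbad
      have hw2 := (List.append_inj hbad rfl).2
      refine ⟨[], by simp, rfl, ?_⟩
      obtain ⟨-, ⟨r, hr, -⟩ | ⟨-, -, h3⟩⟩ := hw
      · exfalso
        have : c ∈ rn N 2 w.length := by
          rw [← hw2, hr]
          simp
        have := mem_rn_lt hN0 this
        omega
      · have h4 := h3 2 hw2 rfl
        rw [Nat.mod_eq_of_lt (by omega)] at h4
        have h5 := hmc _ h4
        rw [h5] at hw2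
        rw [List.append_nil, List.length_nil, Nat.zero_add, Nat.one_mul]
        exact hw2
  | @cons a v ha hsh ih =>
    obtain ⟨w, s', h1, h2, rfl⟩ := hv_cons.1 hs
    have hw := (hRK a ha w).1 h1
    by_cases hbad : rn N 0 2 ++ w ≠ rn N 0 (2 + w.length)
    · left
      exact answer_bad hN hN6 (by omega) a (hK a ha) (hRK a ha) v w s' hw h2 hbad
    · push Not at hbad
      rw [rn_add, Nat.zero_add] at hbad
      have hw2 := (List.append_inj hbad rfl).2
      have hwL : w = rn N 2 L := by
        obtain ⟨-, ⟨r, hr, -⟩ | ⟨-, -, h3⟩⟩ := hw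
        · exfalso
          have : a ∈ rn N 2 w.length := by
            rw [← hw2, hr]
            simp
          have := mem_rn_lt hN0 this
          have := hK a ha
          omega
        · have h4 := h3 2 hw2 rfl
          rw [Nat.mod_eq_of_lt (by omega)] at h4
          have h5 := hm2 a ha _ h4
          rw [h5] at hw2
          exact hw2
      subst hwL
      have hmode : ∀ q, q < N → q % 2 = 0 → mode a q L → Rl a (rn N q L) := by
        intro q hq hq2 hm
        refine (hRK a ha _).2 ⟨by simp; omega, Or.inr ⟨?_, fun x hx => mem_rn_lt hN0 hx, ?_⟩⟩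
        · intro h
          have := congrArg List.length h
          simp at this
          omega
        · intro p hp _
          rw [rn_length] at hp ⊢
          have : q % N = p % N := by
            refine rn_head (s := []) (s' := []) (l := L) (l' := L) ?_ (by omega) (by omega)
            rw [← hp]
          rw [← this, Nat.mod_eq_of_lt hq]
          exact hm
      have hswap : ∀ q t, rn N q L ++ rn N q t = rn N q t ++ rn N (q + t) L := by
        intro q t
        have e1 : rn N q t = rn N (q + L) t := by
          apply rn_congr
          obtain ⟨k, rfl⟩ := hL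
          simp
        conv_lhs => rw [e1]
        rw [← rn_add, ← rn_add, Nat.add_comm]
      rcases ih s' h2 with (h | ⟨s'', rfl, h⟩ | ⟨p, s'', rfl, h3, h4, h5, h⟩) | ⟨u, h3, h4, h5⟩
      · -- lagging
        left; left
        have := HV.cons (hmode 0 (by omega) rfl (hm0 a ha)) h
        rw [← List.append_assoc, hswap 0 2] at this
        rw [← List.append_assoc]
        exact this
      · -- leading
        left; right; left
        refine ⟨rn N 4 L ++ s'', ?_, HV.cons (hmode 4 (by omega) rfl (hm4 a ha)) h⟩
        rw [← List.append_assoc, ← List.append_assoc, hswap 2 2]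
      · -- covering
        left; right; left
        refine ⟨(rn N 4 (L - 2) ++ p) ++ s'', ?_, HV.cons ((hRK a ha _).2 ⟨?_, Or.inr
          ⟨?_, ?_, ?_⟩⟩) h⟩
        · have : L = 2 + (L - 2) := by omega
          conv_lhs => rw [this, rn_add]
          simp only [List.append_assoc]
        · simp only [List.length_append, rn_length]
          omega
        · intro h
          have := congrArg List.length h
          simp at this
          omega
        · intro x hx
          rcases List.mem_append.1 hx with hx | hx
          · exact mem_rn_lt hN0 hx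
          · exact h4 x hx
        · intro q hq _
          exfalso
          apply h5
          have e0 := rn_append hq.symm
          simp only [rn_length] at e0
          have e1 : q % N = 4 % N := by
            refine rn_head (s := []) (s' := []) (l := L - 2) (l' := L - 2) ?_ (by omega) (by omega)
            rw [← e0.1]
          have e2 : p = rn N 2 p.length := by
            rw [e0.2.1]
            simp only [rn_length]
            apply rn_congr
            have : (q + (L - 2)) % N = (4 + (L - 2)) % N := Nat.ModEq.add_right _ e1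
            rw [this]
            have : 4 + (L - 2) = 2 + L := by omega
            rw [this]
            obtain ⟨k, rfl⟩ := hL
            simp
          rw [rn_add, Nat.zero_add, ← e2]
      · right
        refine ⟨a :: u, ?_, by rw [h4]; rfl, ?_⟩
        · intro x hx
          rcases List.mem_cons.1 hx with rfl | hx
          · exact ha
          · exact h3 x hx
        · rw [h5]
          have e1 : rn N 2 ((u.length + 1) * L) = rn N (2 + L) ((u.length + 1) * L) := by
            apply rn_congr
            obtain ⟨k, rfl⟩ := hL
            simp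
          rw [e1, ← rn_add]
          congr 1
          simp only [List.length_cons]
          ring

end

end Pool.Agent.Helper844.OL
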