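import Mathlib

set_option autoImplicit false

namespace Pool.Agent.Helper844.OL

/-- a finite automaton with integer weights -/
structure WA (K : Type) where
  Q : Type
  fin : Fintype Q
  tr : Q → K → Q → ℤ → Prop
  st : Q → Prop
  fi : Q → ℤ → Prop
  B : ℕ
  tr_le : ∀ q k q' w, tr q k q' w → |w| ≤ B
  fi_le : ∀ q w, fi q w → |w| ≤ B

inductive Path {K : Type} (A : WA K) : A.Q → List K → A.Q → ℤ → Prop
  | nil (q : A.Q) : Path A q [] q 0
  | cons {q q1 q2 : A.Q} {k : K} {w W : ℤ} {u : List K} :
      A.tr q k q1 w → Path A q1 u q2 W → Path A q (k :: u) q2 (w + W)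

/-- some accepting run has total weight zero -/
def WA.Acc {K : Type} (A : WA K) (u : List K) : Prop :=
  ∃ q0 q W w, A.st q0 ∧ Path A q0 u q W ∧ A.fi q w ∧ W + w = 0

/-- some accepting run has positive total weight -/
def WA.Pos {K : Type} (A : WA K) (u : List K) : Prop :=
  ∃ q0 q W w, A.st q0 ∧ Path A q0 u q W ∧ A.fi q w ∧ 0 < W + w

/-- the automaton that may lower positive weights -/
def WA.slack {K : Type} (A : WA K) : WA K where
  Q := A.Q × Bool
  fin := by
    haveI := A.fin
    infer_instance
  tr := fun q k q' w' => ∃ w, A.tr q.1 k q'.1 w ∧ w' ≤ w ∧ (w' = w ∨ 0 ≤ w') ∧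
    q'.2 = (q.2 || decide (w' ≠ w))
  st := fun q => A.st q.1 ∧ q.2 = false
  fi := fun q w' => ∃ w, A.fi q.1 w ∧ w' ≤ w ∧ (w' = w ∨ 0 ≤ w') ∧ (q.2 = true ∨ w' ≠ w)
  B := A.B
  tr_le := by
    rintro q k q' w' ⟨w, h1, h2, h3, -⟩
    have h4 := A.tr_le _ _ _ _ h1
    rcases h3 with rfl | h3
    · exact h4
    · rw [abs_of_nonneg h3]
      exact h2.trans ((le_abs_self w).trans h4)
  fi_le := by
    rintro q w' ⟨w, h1, h2, h3, -⟩
    have h4 := A.fi_le _ _ h1
    rcases h3 with rfl | h3
    · exact h4
    · rw [abs_of_nonneg h3]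
      exact h2.trans ((le_abs_self w).trans h4)

theorem slack_sound {K : Type} (A : WA K) (q q' : A.slack.Q) (u : List K) (W' : ℤ)
    (h : Path A.slack q u q' W') :
    ∃ W, Path A q.1 u q'.1 W ∧ W' ≤ W ∧ (q.2 = false → q'.2 = true → W' < W) := by
  induction h with
  | nil q =>
    refine ⟨0, Path.nil _, le_refl _, ?_⟩
    intro h1 h2
    rw [h1] at h2
    exact absurd h2 (by simp)
  | @cons q q1 q2 k w' W' u h1 h2 ih =>
    obtain ⟨w, a1, a2, a3, a4⟩ := h1
    obtain ⟨W, b1, b2, b3⟩ := ih
    refine ⟨w + W, Path.cons a1 b1, by linarith, ?_⟩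
    intro c1 c2
    rw [c1, Bool.false_or] at a4
    by_cases hw : w' = w
    · have : q1.2 = false := by
        rw [a4]
        simp [hw]
      have := b3 this c2
      linarith
    · have : w' < w := lt_of_le_of_ne a2 hw
      linarith

theorem slack_complete {K : Type} (A : WA K) (q q' : A.Q) (u : List K) (W : ℤ)
    (h : Path A q u q' W) :
    ∃ P : ℤ, 0 ≤ P ∧ W ≤ P ∧ ∀ d : ℤ, 0 ≤ d → d ≤ P → ∀ b : Bool,
      Path A.slack (q, b) u (q', (b || decide (d ≠ 0))) (W - d) := by
  induction h with
  | nil q =>
    refine ⟨0, le_refl _, le_refl _, ?_⟩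
    intro d h1 h2 b
    have : d = 0 := le_antisymm h2 h1
    subst this
    have := Path.nil (A := A.slack) (q, b)
    simpa using this
  | @cons q q1 q2 k w W u h1 h2 ih =>
    obtain ⟨P, p0, pW, hP⟩ := ih
    refine ⟨max w 0 + P, by positivity, by
      have := le_max_left w 0
      linarith, ?_⟩
    intro d d0 dP b
    have e1 : 0 ≤ min d (max w 0) := le_min d0 (le_max_right _ _)
    have e2 : min d (max w 0) ≤ d := min_le_left _ _
    have e3 : min d (max w 0) ≤ max w 0 := min_le_right _ _
    have e4 : d - min d (max w 0) ≤ P := by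
      rcases min_choice d (max w 0) with h | h <;> rw [h] <;> linarith
    set d1 := min d (max w 0) with hd1
    have key := hP (d - d1) (by linarith) e4 (b || decide (d1 ≠ 0))
    have tr1 : A.slack.tr (q, b) k (q1, (b || decide (d1 ≠ 0))) (w - d1) := by
      refine ⟨w, h1, by linarith, ?_, ?_⟩
      · rcases eq_or_lt_of_le e1 with h | h
        · left; linarith
        · right
          have : w = max w 0 := by
            rcases max_choice w 0 with h' | h'
            · exact h'.symm
            · rw [h'] at e3
              linarith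
          linarith
      · simp only [ne_eq, sub_eq_self]
    have := Path.cons tr1 key
    have e5 : (b || decide (d1 ≠ 0) || decide (d - d1 ≠ 0)) = (b || decide (d ≠ 0)) := by
      rw [Bool.or_assoc]
      congr 1
      rw [Bool.eq_iff_iff]
      simp only [Bool.or_eq_true, decide_eq_true_eq]
      constructor
      · rintro (h | h)
        · intro h'
          exact h (by linarith)
        · intro h'
          exact h (by linarith)
      · intro h
        by_cases h' : d1 = 0
        · right
          rw [h']
          simpa using h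
        · left; exact h'
    rw [e5] at this
    have e6 : w - d1 + (W - (d - d1)) = w + W - d := by ring
    rw [e6] at this
    exact this

theorem slack_acc {K : Type} (A : WA K) (u : List K) : A.slack.Acc u ↔ A.Pos u := by
  constructor
  · rintro ⟨q0, q, W', w', h1, h2, ⟨w, f1, f2, f3, f4⟩, h4⟩
    obtain ⟨W, a1, a2, a3⟩ := slack_sound A q0 q u W' h2
    refine ⟨q0.1, q.1, W, w, h1.1, a1, f1, ?_⟩
    rcases f4 with f4 | f4
    · have := a3 h1.2 f4
      linarith
    · have : w' < w := lt_of_le_of_ne f2 f4
      linarith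
  · rintro ⟨q0, q, W, w, h1, h2, h3, h4⟩
    obtain ⟨P, p0, pW, hP⟩ := slack_complete A q0 q u W h2
    -- total reduction `W + w`, split as `d1 + d2`
    have e1 : 0 ≤ min (W + w) P := le_min h4.le p0
    have e2 : min (W + w) P ≤ W + w := min_le_left _ _
    have e3 : min (W + w) P ≤ P := min_le_right _ _
    have e4 : W + w - min (W + w) P ≤ max w 0 := by
      have := le_max_left w 0
      have := le_max_right w 0
      rcases min_choice (W + w) P with h | h <;> rw [h] <;> linarith
    set d1 := min (W + w) P with hd1
    have key := hP d1 e1 e3 false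
    refine ⟨(q0, false), (q, (false || decide (d1 ≠ 0))), W - d1, w - (W + w - d1), ⟨h1, rfl⟩, key,
      ⟨w, h3, by linarith, ?_, ?_⟩, by ring⟩
    · rcases eq_or_lt_of_le (sub_nonneg.2 e2) with h | h
      · left; linarith
      · right
        have : w = max w 0 := by
          rcases max_choice w 0 with h' | h'
          · exact h'.symm
          · rw [h'] at e4
            linarith
        linarith
    · by_cases h : d1 = 0
      · right
        intro h'
        rw [h] at h'
        linarith
      · left
        simp [h]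

end Pool.Agent.Helper844.OL
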