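import Mathlib
import Pool.Agent.Helper844.OL.Nfa
import Pool.Agent.Helper844.OL.Ans

set_option autoImplicit false

namespace Pool.Agent.Helper844.OL

/-- a weighted automaton with codes of states and letters -/
structure Cod (K : Type) where
  A : WA K
  n : ℕ
  idx : A.Q → ℕ
  idx_lt : ∀ q, idx q < n
  idx_inj : Function.Injective idx
  m : ℕ
  en : K → ℕ
  en_lt : ∀ k, en k < m
  en_inj : Function.Injective en

namespace Cod

variable {K : Type} (D : Cod K)

/-- number of residues -/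
def N : ℕ := 2 * D.n + 6
/-- basic length -/
def L : ℕ := D.N * (D.A.B + 2)
/-- maximal length -/
def M : ℕ := 2 * D.L + 10
/-- code of a history letter -/
def enc (k : K) : ℕ := D.N + 2 + D.en k

theorem N_ge : 6 ≤ D.N := by simp [N]
theorem N_even : 2 ∣ D.N := ⟨D.n + 3, by simp [N]; ring⟩
theorem L_dvd : D.N ∣ D.L := ⟨_, rfl⟩
theorem L_ge : 2 * D.N ≤ D.L := by
  rw [L, Nat.mul_comm 2]
  exact Nat.mul_le_mul_left _ (by omega)
theorem enc_ge (k : K) : D.N + 2 ≤ D.enc k := Nat.le_add_right _ _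
theorem enc_inj : Function.Injective D.enc := by
  intro a b h
  simp only [enc] at h
  exact D.en_inj (by omega)

def MK (k : K) (r l : ℕ) : Prop :=
  (l = D.L ∧ (r = 0 ∨ r = 2 ∨ r = 4)) ∨ ∃ q q' w, D.A.tr q k q' w ∧ r = 2 * D.idx q + 6 ∧
    (l : ℤ) = D.L + 2 * D.idx q' - 2 * D.idx q + D.N * w

def MC (r l : ℕ) : Prop :=
  (l = D.L ∧ r = 2) ∨ ∃ q w, D.A.fi q w ∧ r = 2 * D.idx q + 6 ∧
    (l : ℤ) = D.L + 2 - (2 * D.idx q + 6) + D.N * w

def md (x r l : ℕ) : Prop := (∃ k, x = D.enc k ∧ D.MK k r l) ∨ (x = D.N ∧ D.MC r l)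

def isK (x : ℕ) : Prop := ∃ k, x = D.enc k

theorem md_enc (k : K) (r l : ℕ) : D.md (D.enc k) r l ↔ D.MK k r l := by
  constructor
  · rintro (⟨k', h, h'⟩ | ⟨h, -⟩)
    · rw [D.enc_inj h]
      exact h'
    · have := D.enc_ge k
      omega
  · intro h
    exact Or.inl ⟨k, rfl, h⟩

theorem md_N (r l : ℕ) : D.md D.N r l ↔ D.MC r l := by
  constructor
  · rintro (⟨k', h, h'⟩ | ⟨-, h⟩)
    · have := D.enc_ge k'
      omega
    · exact h
  · intro h
    exact Or.inr ⟨rfl, h⟩

/-- words replacing the growth letter, common to both systems -/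
def A1 (w : List ℕ) : Prop :=
  w = rn D.N 0 D.N ∨ w = rn D.N 0 (D.N + 4) ∨
  (∃ q, D.A.st q ∧ w = rn D.N 0 (D.N + (2 * D.idx q + 6))) ∨
  (∃ p, w = rn D.N 0 (D.N + 2) ++ p ∧ p.length ≤ 4 ∧ (∀ a ∈ p, a < D.N) ∧
    rn D.N 0 2 ++ p ≠ rn D.N 0 (2 + p.length))

/-- the rules of the two systems -/
def Ru (b : Prop) (a : ℕ) (w : List ℕ) : Prop :=
  (a < D.N ∧ w ≠ [] ∧ (∀ x ∈ w, x < D.N) ∧ w.length ≤ D.M) ∨
  ((D.isK a ∨ a = D.N) ∧ Wd D.N D.M (D.md a) a w) ∨
  (a = D.N + 1 ∧ ((∃ k, w = [D.N + 1, D.enc k]) ∨ D.A1 w ∨ (b ∧ w = rn D.N 0 (D.N + 2))))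

theorem ru_res (b : Prop) (a : ℕ) (ha : a < D.N) (w : List ℕ) :
    D.Ru b a w ↔ w ≠ [] ∧ (∀ x ∈ w, x < D.N) ∧ w.length ≤ D.M := by
  constructor
  · rintro (h | ⟨⟨k, rfl⟩ | rfl, -⟩ | ⟨rfl, -⟩)
    · exact h.2
    · have := D.enc_ge k
      omega
    · omega
    · omega
  · intro h
    exact Or.inl ⟨ha, h⟩

theorem ru_K (b : Prop) (a : ℕ) (ha : D.isK a ∨ a = D.N) (w : List ℕ) :
    D.Ru b a w ↔ Wd D.N D.M (D.md a) a w := by
  have h1 : D.N ≤ a ∧ a ≠ D.N + 1 := by
    rcases ha with ⟨k, rfl⟩ | rfl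
    · have := D.enc_ge k
      omega
    · omega
  constructor
  · rintro (h | h | ⟨h, -⟩)
    · omega
    · exact h.2
    · omega
  · intro h
    exact Or.inr (Or.inl ⟨ha, h⟩)

theorem ru_t (b : Prop) (w : List ℕ) : D.Ru b (D.N + 1) w ↔
    ((∃ k, w = [D.N + 1, D.enc k]) ∨ D.A1 w ∨ (b ∧ w = rn D.N 0 (D.N + 2))) := by
  constructor
  · rintro (h | ⟨⟨k, h⟩ | h, -⟩ | ⟨-, h⟩)
    · omega
    · have := D.enc_ge k
      omega
    · omega
    · exact h
  · intro h
    exact Or.inr (Or.inr ⟨rfl, h⟩)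

theorem B_le (w : ℤ) (h : |w| ≤ D.A.B) : (D.N : ℤ) * w ≤ D.N * D.A.B ∧
    -(D.N * D.A.B : ℤ) ≤ D.N * w := by
  obtain ⟨h1, h2⟩ := abs_le.1 h
  constructor
  · exact mul_le_mul_of_nonneg_left h2 (by positivity)
  · have := mul_le_mul_of_nonneg_left h1 (by positivity : (0 : ℤ) ≤ D.N)
    linarith

theorem L_eq : (D.L : ℤ) = D.N * D.A.B + 2 * D.N := by
  rw [L]
  push_cast
  ring

/-- runs of the automaton give derivations -/
theorem hv_of_path (b : Prop) (q q' : D.A.Q) (w : List K) (W w1 : ℤ) (h : Path D.A q w q' W)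
    (hf : D.A.fi q' w1) :
    ∃ T : ℕ, (T : ℤ) = (w.length + 1) * D.L + 2 - (2 * D.idx q + 6) + D.N * (W + w1) ∧
      HV (D.Ru b) (w.map D.enc ++ [D.N]) (rn D.N (2 * D.idx q + 6) T) := by
  have hN0 : 0 < D.N := by have := D.N_ge; omega
  have hM : D.M = 2 * D.L + 10 := rfl
  have hLe := D.L_eq
  have hNn : (D.N : ℤ) = 2 * D.n + 6 := by simp [N]
  induction h with
  | nil q =>
    have h1 := D.B_le w1 (D.A.fi_le _ _ hf)
    have hq := D.idx_lt q
    refine ⟨((D.L : ℤ) + 2 - (2 * D.idx q + 6) + D.N * w1).toNat, ?_, ?_⟩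
    · rw [Int.toNat_of_nonneg (by linarith)]
      simp
    · set T := ((D.L : ℤ) + 2 - (2 * D.idx q + 6) + D.N * w1).toNat with hT
      have hT2 : (T : ℤ) = (D.L : ℤ) + 2 - (2 * D.idx q + 6) + D.N * w1 := by
        rw [hT, Int.toNat_of_nonneg (by linarith)]
      have hT0 : 0 < T := by
        have : (0 : ℤ) < T := by
          rw [hT2]
          linarith
        exact_mod_cast this
      have hTM : T ≤ D.M := by
        have : (T : ℤ) ≤ D.M := by
          rw [hT2, hM]
          push_cast at *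
          nlinarith
        exact_mod_cast this
      have : HV (D.Ru b) [D.N] (rn D.N (2 * D.idx q + 6) T ++ []) := by
        refine HV.cons ((D.ru_K b _ (Or.inr rfl) _).2 ⟨by simpa using hTM, Or.inr ⟨?_, ?_, ?_⟩⟩)
          HV.nil
        · intro h
          have := congrArg List.length h
          simp at this
          omega
        · exact fun a ha => mem_rn_lt hN0 ha
        · intro p hp _
          rw [rn_length] at hp ⊢
          have e1 : (2 * D.idx q + 6) % D.N = p % D.N := by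
            refine rn_head (s := []) (s' := []) (l := T) (l' := T) ?_ hT0 hT0
            rw [← hp]
          rw [← e1, Nat.mod_eq_of_lt (by simp only [N]; omega), D.md_N]
          exact Or.inr ⟨q, w1, hf, rfl, hT2⟩
      simpa using this
  | @cons q q1 q2 k w0 W u h1 h2 ih =>
    obtain ⟨T', hT', hv⟩ := ih hf
    have h3 := D.B_le w0 (D.A.tr_le _ _ _ _ h1)
    have hq := D.idx_lt q
    have hq1 := D.idx_lt q1
    set l := ((D.L : ℤ) + 2 * D.idx q1 - 2 * D.idx q + D.N * w0).toNat with hl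
    have hl2 : (l : ℤ) = (D.L : ℤ) + 2 * D.idx q1 - 2 * D.idx q + D.N * w0 := by
      rw [hl, Int.toNat_of_nonneg (by linarith)]
    have hl0 : 0 < l := by
      have : (0 : ℤ) < l := by
        rw [hl2]
        linarith
      exact_mod_cast this
    have hlM : l ≤ D.M := by
      have : (l : ℤ) ≤ D.M := by
        rw [hl2, hM]
        push_cast at *
        nlinarith
      exact_mod_cast this
    refine ⟨l + T', ?_, ?_⟩
    · push_cast
      rw [hl2, hT']
      simp only [List.length_cons]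
      push_cast
      ring
    · rw [rn_add]
      have e2 : rn D.N (2 * D.idx q + 6 + l) T' = rn D.N (2 * D.idx q1 + 6) T' := by
        apply rn_congr
        have : ((2 * D.idx q + 6 + l : ℕ) : ℤ) ≡ ((2 * D.idx q1 + 6 : ℕ) : ℤ) [ZMOD D.N] := by
          apply Int.ModEq.symm
          rw [Int.modEq_iff_dvd]
          refine ⟨D.A.B + 2 + w0, ?_⟩
          push_cast
          rw [hl2, hLe]
          ring
        exact (Int.natCast_modEq_iff.1 this)
      rw [e2, List.map_cons, List.cons_append]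
      refine HV.cons ((D.ru_K b _ (Or.inl ⟨k, rfl⟩) _).2 ⟨by simpa using hlM,
        Or.inr ⟨?_, ?_, ?_⟩⟩) hv
      · intro h
        have := congrArg List.length h
        simp at this
        omega
      · exact fun a ha => mem_rn_lt hN0 ha
      · intro p hp _
        rw [rn_length] at hp ⊢
        have e1 : (2 * D.idx q + 6) % D.N = p % D.N := by
          refine rn_head (s := []) (s' := []) (l := l) (l' := l) ?_ hl0 hl0
          rw [← hp]
        rw [← e1, Nat.mod_eq_of_lt (by simp only [N]; omega), D.md_enc]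
        exact Or.inr ⟨q, q1, w0, h1, rfl, hl2⟩

/-- if all relevant histories are accepted, the additional word can be simulated -/
theorem forward (b : Prop) (v s : List ℕ) (hsh : Shape D.N D.isK D.N v)
    (hacc : ∀ w : List K, v = w.map D.enc ++ [D.N] → D.A.Acc w) (hs : HV (D.Ru b) v s) :
    ∃ a s', D.A1 a ∧ HV (D.Ru b) v s' ∧ rn D.N 0 (D.N + 2) ++ s = a ++ s' := by
  have hN0 : 0 < D.N := by have := D.N_ge; omega
  have hLN := D.L_ge
  have hN6 := D.N_ge
  have key := answer (N := D.N) (L := D.L) (M := D.M) (isK := D.isK) (c := D.N) (mode := D.md)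
    (Rl := D.Ru b) D.N_even D.N_ge D.L_dvd (by omega) (by simp only [M]; omega) (le_refl _)
    (by
      rintro x ⟨k, rfl⟩
      have := D.enc_ge k
      omega)
    (fun a ha w => D.ru_res b a ha w) (fun x hx w => D.ru_K b x (Or.inl hx) w)
    (fun w => D.ru_K b _ (Or.inr rfl) w)
    (by
      rintro x ⟨k, rfl⟩
      rw [D.md_enc]
      exact Or.inl ⟨rfl, Or.inl rfl⟩)
    (by
      rintro x ⟨k, rfl⟩
      rw [D.md_enc]
      exact Or.inl ⟨rfl, Or.inr (Or.inr rfl)⟩)
    (by
      rintro x ⟨k, rfl⟩ l h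
      rw [D.md_enc] at h
      rcases h with h | ⟨q, q', w, -, h, -⟩
      · exact h.1
      · omega)
    (by
      intro l h
      rw [D.md_N] at h
      rcases h with h | ⟨q, w, -, h, -⟩
      · exact h.1
      · omega)
    v s hsh hs
  have he : rn D.N 0 (D.N + 2) = rn D.N 0 D.N ++ rn D.N 0 2 := by
    rw [rn_add]
    congr 1
    apply rn_congr
    simp
  rcases key with (h | ⟨s', rfl, h⟩ | ⟨p, s', rfl, h3, h4, h5, h⟩) | ⟨w, h1, h2, h3⟩
  · exact ⟨_, _, Or.inl rfl, h, by rw [he, List.append_assoc]⟩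
  · refine ⟨_, _, Or.inr (Or.inl rfl), h, ?_⟩
    rw [← List.append_assoc]
    congr 1
    have : D.N + 4 = (D.N + 2) + 2 := by omega
    rw [this, rn_add D.N 0 (D.N + 2) 2]
    congr 1
    apply rn_congr
    simp
  · refine ⟨_, _, Or.inr (Or.inr (Or.inr ⟨p, rfl, h3, h4, h5⟩)), h, by rw [List.append_assoc]⟩
  · obtain ⟨w0, rfl⟩ : ∃ w0 : List K, w = w0.map D.enc := by
      clear h2 h3
      induction w with
      | nil => exact ⟨[], rfl⟩
      | cons x w ih =>
        obtain ⟨w0, h⟩ := ih (fun y hy => h1 y (List.mem_cons_of_mem _ hy))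
        obtain ⟨k, hk⟩ := h1 x List.mem_cons_self
        exact ⟨k :: w0, by rw [List.map_cons, ← h, ← hk]⟩
    obtain ⟨q0, q, W, w1, a1, a2, a3, a4⟩ := hacc w0 h2
    obtain ⟨T, hT, hv⟩ := D.hv_of_path b q0 q w0 W w1 a2 a3
    rw [a4, mul_zero, add_zero] at hT
    refine ⟨_, _, Or.inr (Or.inr (Or.inl ⟨q0, a1, rfl⟩)), by rw [h2]; exact hv, ?_⟩
    rw [h3, List.length_map]
    have e1 : rn D.N (2 * D.idx q0 + 6) T = rn D.N (0 + (D.N + (2 * D.idx q0 + 6))) T := by
      apply rn_congr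
      simp
    have e2 : rn D.N 2 ((w0.length + 1) * D.L) = rn D.N (0 + (D.N + 2))
        ((w0.length + 1) * D.L) := by
      apply rn_congr
      simp
    rw [e1, e2, ← rn_add, ← rn_add]
    congr 1
    have : ((D.N + 2 + (w0.length + 1) * D.L : ℕ) : ℤ) = (D.N + (2 * D.idx q0 + 6) + T : ℕ) := by
      push_cast
      rw [hT]
      ring
    exact_mod_cast this

theorem step_inv (b : Prop) (x : ℕ) (hx : D.isK x ∨ x = D.N) (p T : ℕ) (w s : List ℕ)
    (hw : D.Ru b x w) (h : rn D.N p T = w ++ s) (hp : p % 2 = 0) :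
    D.md x (p % D.N) w.length ∧ s = rn D.N (p + w.length) s.length ∧
      T = w.length + s.length := by
  have hN0 : 0 < D.N := by have := D.N_ge; omega
  obtain ⟨h1, h2, h3⟩ := rn_append h
  refine ⟨?_, h2, h3⟩
  rw [D.ru_K b x hx] at hw
  obtain ⟨-, ⟨r, hr, -⟩ | ⟨-, -, h4⟩⟩ := hw
  · exfalso
    have h5 : x ∈ rn D.N p T := by
      rw [h, hr]
      simp
    have h6 := mem_rn_lt hN0 h5
    rcases hx with ⟨k, rfl⟩ | rfl
    · have := D.enc_ge k
      omega
    · omega
  · exact h4 p h1 hp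

theorem stuck (b : Prop) (w : List K) (p T : ℕ) (hp : p % D.N = 0 ∨ p % D.N = 4)
    (h : HV (D.Ru b) (w.map D.enc ++ [D.N]) (rn D.N p T)) : False := by
  have hN6 := D.N_ge
  induction w generalizing p T with
  | nil =>
    obtain ⟨w, s, h1, h2, h3⟩ := hv_cons.1 h
    have hp2 : p % 2 = 0 := by
      have := parity D.N_even (Nat.mod_mod p D.N)
      omega
    obtain ⟨h4, -, -⟩ := D.step_inv b _ (Or.inr rfl) p T w s h1 h3 hp2
    rw [D.md_N] at h4
    rcases h4 with ⟨-, h4⟩ | ⟨q, w, -, h4, -⟩ <;> omega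
  | cons k w ih =>
    rw [List.map_cons, List.cons_append] at h
    obtain ⟨w', s, h1, h2, h3⟩ := hv_cons.1 h
    have hp2 : p % 2 = 0 := by
      have := parity D.N_even (Nat.mod_mod p D.N)
      omega
    obtain ⟨h4, h5, -⟩ := D.step_inv b _ (Or.inl ⟨k, rfl⟩) p T w' s h1 h3 hp2
    rw [D.md_enc] at h4
    rcases h4 with ⟨h4, -⟩ | ⟨q, q', w, -, h4, -⟩
    · rw [h5] at h2
      refine ih _ _ ?_ h2
      rw [h4]
      obtain ⟨j, hj⟩ := D.L_dvd
      rw [hj]
      simpa using hp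
    · omega

theorem path_of_hv (b : Prop) (w : List K) (p T : ℕ) (q : D.A.Q)
    (hp : p % D.N = 2 * D.idx q + 6)
    (h : HV (D.Ru b) (w.map D.enc ++ [D.N]) (rn D.N p T)) :
    ∃ q' W w1, Path D.A q w q' W ∧ D.A.fi q' w1 ∧
      (T : ℤ) = (w.length + 1) * D.L + 2 - (2 * D.idx q + 6) + D.N * (W + w1) := by
  have hN6 := D.N_ge
  induction w generalizing p T q with
  | nil =>
    obtain ⟨w, s, h1, h2, h3⟩ := hv_cons.1 h
    have hp2 : p % 2 = 0 := by
      have := parity D.N_even (Nat.mod_mod p D.N)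
      omega
    obtain ⟨h4, h5, h6⟩ := D.step_inv b _ (Or.inr rfl) p T w s h1 h3 hp2
    cases h2
    rw [D.md_N, hp] at h4
    rcases h4 with ⟨-, h4⟩ | ⟨q', w1, h7, h8, h9⟩
    · omega
    · have : q = q' := D.idx_inj (by omega)
      subst this
      refine ⟨q, 0, w1, Path.nil q, h7, ?_⟩
      rw [h6]
      simp only [List.length_nil, Nat.add_zero, Nat.cast_zero, zero_add, one_mul]
      exact h9
  | cons k w ih =>
    rw [List.map_cons, List.cons_append] at h
    obtain ⟨w', s, h1, h2, h3⟩ := hv_cons.1 h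
    have hp2 : p % 2 = 0 := by
      have := parity D.N_even (Nat.mod_mod p D.N)
      omega
    obtain ⟨h4, h5, h6⟩ := D.step_inv b _ (Or.inl ⟨k, rfl⟩) p T w' s h1 h3 hp2
    rw [D.md_enc, hp] at h4
    rcases h4 with ⟨-, h4⟩ | ⟨q0, q', w0, h7, h8, h9⟩
    · omega
    · have : q = q0 := D.idx_inj (by omega)
      subst this
      rw [h5] at h2
      have e1 : (p + w'.length) % D.N = 2 * D.idx q' + 6 := by
        have hq' : (2 * D.idx q' + 6) % D.N = 2 * D.idx q' + 6 := by
          apply Nat.mod_eq_of_lt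
          have := D.idx_lt q'
          simp only [N]
          omega
        rw [← hq']
        have : ((p + w'.length : ℕ) : ℤ) ≡ ((2 * D.idx q' + 6 : ℕ) : ℤ) [ZMOD D.N] := by
          have e2 : ((p : ℕ) : ℤ) ≡ ((2 * D.idx q + 6 : ℕ) : ℤ) [ZMOD D.N] := by
            rw [Int.natCast_modEq_iff, ← hp]
            exact (Nat.mod_modEq _ _).symm
          push_cast
          refine (Int.ModEq.add_right _ e2).trans ?_
          apply Int.ModEq.symm
          rw [Int.modEq_iff_dvd]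
          refine ⟨D.A.B + 2 + w0, ?_⟩
          push_cast
          rw [h9, D.L_eq]
          ring
        exact Int.natCast_modEq_iff.1 this
      obtain ⟨q2, W, w1, a1, a2, a3⟩ := ih _ _ q' e1 h2
      refine ⟨q2, w0 + W, w1, Path.cons h7 a1, a2, ?_⟩
      rw [h6]
      push_cast
      rw [h9, a3]
      simp only [List.length_cons]
      push_cast
      ring

/-- conversely a simulation of the additional word on a pure history is an accepting run -/
theorem backward (w : List K) (a s : List ℕ) (ha : D.Ru False (D.N + 1) a)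
    (hs : HV (D.Ru False) (w.map D.enc ++ [D.N]) s)
    (h : rn D.N 0 (D.N + 2) ++ rn D.N 2 ((w.length + 1) * D.L) = a ++ s) : D.A.Acc w := by
  have hN6 := D.N_ge
  have hN0 : 0 < D.N := by omega
  have e0 : rn D.N 2 ((w.length + 1) * D.L) = rn D.N (0 + (D.N + 2))
      ((w.length + 1) * D.L) := by
    apply rn_congr
    simp
  rw [e0, ← rn_add] at h
  obtain ⟨h1, h2, h3⟩ := rn_append h
  rw [D.ru_t] at ha
  rcases ha with ⟨k, rfl⟩ | (rfl | rfl | ⟨q, hq, rfl⟩ | ⟨p, rfl, h4, h5, h6⟩) | ⟨ha, -⟩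
  · exfalso
    have : D.N + 1 ∈ rn D.N 0 (D.N + 2 + (w.length + 1) * D.L) := by
      rw [h]
      simp
    have := mem_rn_lt hN0 this
    omega
  · exfalso
    rw [h2] at hs
    refine D.stuck False w _ _ (Or.inl ?_) hs
    simp
  · exfalso
    rw [h2] at hs
    refine D.stuck False w _ _ (Or.inr ?_) hs
    rw [rn_length, Nat.zero_add, Nat.add_mod_left, Nat.mod_eq_of_lt (by omega)]
  · rw [h2] at hs
    rw [rn_length] at hs h3
    have hql := D.idx_lt q
    obtain ⟨q', W, w1, a1, a2, a3⟩ := D.path_of_hv False w _ _ q (by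
      rw [Nat.zero_add, Nat.add_mod_left, Nat.mod_eq_of_lt (by simp only [N]; omega)]) hs
    refine ⟨q, q', W, w1, hq, a1, a2, ?_⟩
    have h7 : ((D.N + 2 + (w.length + 1) * D.L : ℕ) : ℤ) =
        ((D.N + (2 * D.idx q + 6) + s.length : ℕ) : ℤ) := by
      exact_mod_cast h3
    push_cast at h7
    rw [a3] at h7
    have h8 : (D.N : ℤ) * (W + w1) = 0 := by linarith
    rcases mul_eq_zero.1 h8 with h9 | h9
    · exfalso
      have : (D.N : ℤ) ≠ 0 := by exact_mod_cast hN0.ne'
      exact this h9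
    · exact h9
  · exfalso
    apply h6
    have h7 := rn_append h1.symm
    simp only [rn_length] at h7
    rw [rn_add D.N 0 2]
    congr 1
    rw [h7.2.1]
    simp only [rn_length]
    apply rn_congr
    simp
  · exact absurd ha not_false

end Cod

end Pool.Agent.Helper844.OL
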