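import Mathlib
import Pool.Agent.Helper844.Sys
import Pool.Agent.Helper844.OL.Nfa

set_option autoImplicit false

namespace Pool.Agent.Helper844.OL

open Pool.Agent.Helper844.Sys

/-- the letters of the histories -/
inductive Ltr (V E : Type)
  | var (v : V) (s : Bool)
  | al (q : E) (g s : Bool)
  | be (q : E) (g : Bool)
  | dol
  | ax

/-- the tests -/
inductive Tst (E : Type)
  | eq (q : E)
  | cnt (q : E)
  | par
  | blk (q : E) (g : Bool)

def sg (s : Bool) : ℤ := if s then 1 else -1

theorem abs_sg (s : Bool) : |sg s| = 1 := by cases s <;> rfl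

open Classical in
/-- phase independent weight -/
noncomputable def base {V E : Type} (f : V) (S : E → Eqn V) : Tst E → Ltr V E → ℤ
  | .eq q, .al q' g s => if q' = q then (S q).e * sg g * sg s else 0
  | .eq q, .var v s => sg s * ((if v = (S q).k then (S q).a else 0) +
      (if v = (S q).l then (S q).b else 0) + (if v = (S q).m then (S q).c else 0))
  | .cnt q, .be q' g => if q' = q then sg g else 0
  | .cnt q, .var v s => if v = (S q).j then - sg s else 0
  | .par, .var v s => if v = f then sg s else 0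
  | .blk q _, .var v s => if v = (S q).i then - sg s else 0
  | _, _ => 0

open Classical in
/-- the extra weight in the middle phase -/
noncomputable def extra {V E : Type} : Tst E → Ltr V E → ℤ
  | .par, .ax => 4
  | .blk q g, .al q' g' s => if q' = q ∧ g' = g then sg s else 0
  | _, _ => 0

/-- the letter that changes the phase -/
def mark {V E : Type} : Tst E → Ltr V E
  | .blk q g => .be q g
  | _ => .dol

def cst {V E : Type} (S : E → Eqn V) : Tst E → ℤ
  | .eq q => (S q).d
  | .par => -1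
  | _ => 0

def okf {E : Type} : Tst E → Fin 3 → Prop
  | .par, p => p = 1
  | .blk _ _, p => p ≠ 0
  | _, _ => True

/-- phase change -/
def stp (mk : Prop) (p p' : Fin 3) : Prop :=
  (¬ mk ∧ p' = p) ∨ (mk ∧ ((p = 0 ∧ (p' = 0 ∨ p' = 1)) ∨ (p ≠ 0 ∧ p' = 2)))

/-- runs of a test with the extra weight only -/
inductive Run {K : Type} (mk : K → Prop) (ex : K → ℤ) : Fin 3 → List K → Fin 3 → ℤ → Prop
  | nil (p : Fin 3) : Run mk ex p [] p 0
  | cons {p p1 p2 : Fin 3} {a : K} {u : List K} {z : ℤ} :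
      stp (mk a) p p1 → Run mk ex p1 u p2 z →
      Run mk ex p (a :: u) p2 ((if p = 1 then ex a else 0) + z)

theorem run_nil {K : Type} {mk : K → Prop} {ex : K → ℤ} {p r : Fin 3} {z : ℤ} :
    Run mk ex p [] r z ↔ r = p ∧ z = 0 := by
  constructor
  · intro h
    cases h
    exact ⟨rfl, rfl⟩
  · rintro ⟨rfl, rfl⟩
    exact Run.nil _

theorem run_cons {K : Type} {mk : K → Prop} {ex : K → ℤ} {p r : Fin 3} {a : K} {u : List K}
    {z : ℤ} : Run mk ex p (a :: u) r z ↔ ∃ p1 z1, stp (mk a) p p1 ∧ Run mk ex p1 u r z1 ∧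
      z = (if p = 1 then ex a else 0) + z1 := by
  constructor
  · intro h
    cases h with
    | cons h1 h2 => exact ⟨_, _, h1, h2, rfl⟩
  · rintro ⟨p1, z1, h1, h2, rfl⟩
    exact Run.cons h1 h2

theorem run_append {K : Type} {mk : K → Prop} {ex : K → ℤ} (u v : List K) (p r : Fin 3)
    (z : ℤ) : Run mk ex p (u ++ v) r z ↔ ∃ p1 z1 z2, Run mk ex p u p1 z1 ∧ Run mk ex p1 v r z2 ∧
      z = z1 + z2 := by
  induction u generalizing p z with
  | nil =>
    constructor
    · intro h
      exact ⟨p, 0, z, Run.nil p, h, by ring⟩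
    · rintro ⟨p1, z1, z2, h1, h2, rfl⟩
      obtain ⟨rfl, rfl⟩ := run_nil.1 h1
      simpa using h2
  | cons a u ih =>
    rw [List.cons_append, run_cons]
    constructor
    · rintro ⟨p1, z1, h1, h2, rfl⟩
      obtain ⟨p2, z2, z3, h3, h4, rfl⟩ := (ih _ _).1 h2
      exact ⟨p2, _, z3, Run.cons h1 h3, h4, by ring⟩
    · rintro ⟨p1, z1, z2, h1, h2, rfl⟩
      obtain ⟨p2, z3, h3, h4, rfl⟩ := run_cons.1 h1
      exact ⟨p2, z3 + z2, h3, (ih _ _).2 ⟨p1, z3, z2, h4, h2, rfl⟩, by ring⟩

/-- sum of a weight function over a word -/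
def tot {K : Type} (c : K → ℤ) (u : List K) : ℤ := (u.map c).sum

theorem tot_nil {K : Type} (c : K → ℤ) : tot c [] = 0 := rfl
theorem tot_cons {K : Type} (c : K → ℤ) (a : K) (u : List K) :
    tot c (a :: u) = c a + tot c u := by simp [tot]
theorem tot_append {K : Type} (c : K → ℤ) (u v : List K) :
    tot c (u ++ v) = tot c u + tot c v := by simp [tot]

/-- letters of the family of tests, with a sign -/
noncomputable def testWA {V E : Type} [Fintype V] [Fintype E] (f : V) (S : E → Eqn V)
    (B : ℕ) (hB : ∀ t a, |base f S t a| + |(extra t a : ℤ)| ≤ B) (hB' : ∀ t, |cst S t| ≤ B)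
    (hT : Fintype (Tst E)) :
    WA (Ltr V E) where
  Q := Tst E × Bool × Fin 3
  fin := inferInstance
  tr := fun q a q' w => q'.1 = q.1 ∧ q'.2.1 = q.2.1 ∧ stp (a = mark q.1) q.2.2 q'.2.2 ∧
    w = sg q.2.1 * (base f S q.1 a + if q.2.2 = 1 then extra q.1 a else 0)
  st := fun q => q.2.2 ≠ 2
  fi := fun q w => okf q.1 q.2.2 ∧ w = sg q.2.1 * cst S q.1
  B := B
  tr_le := by
    rintro q a q' w ⟨-, -, -, rfl⟩
    rw [abs_mul, abs_sg, one_mul]
    have h1 := hB q.1 a
    split_ifs
    · exact (abs_add_le _ _).trans h1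
    · rw [add_zero]
      have := abs_nonneg (extra q.1 a : ℤ)
      linarith
  fi_le := by
    rintro q w ⟨-, rfl⟩
    rw [abs_mul, abs_sg, one_mul]
    exact hB' q.1

section

variable {V E : Type} [Fintype V] [Fintype E] (f : V) (S : E → Eqn V)
    (B : ℕ) (hB : ∀ t a, |base f S t a| + |(extra t a : ℤ)| ≤ B) (hB' : ∀ t, |cst S t| ≤ B)
    (hT : Fintype (Tst E))

theorem path_of_run (t : Tst E) (s : Bool) (p r : Fin 3) (u : List (Ltr V E)) (z : ℤ)
    (h : Run (fun a => a = mark t) (extra t) p u r z) :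
    Path (testWA f S B hB hB' hT) (t, s, p) u (t, s, r) (sg s * (tot (base f S t) u + z)) := by
  induction h with
  | nil p =>
    rw [tot_nil]
    simpa using Path.nil (A := testWA f S B hB hB' hT) (t, s, p)
  | @cons p p1 p2 a u z h1 h2 ih =>
    have tr : (testWA f S B hB hB' hT).tr (t, s, p) a (t, s, p1)
        (sg s * (base f S t a + if p = 1 then extra t a else 0)) := ⟨rfl, rfl, h1, rfl⟩
    have := Path.cons tr ih
    rw [tot_cons]
    have e : sg s * (base f S t a + if p = 1 then extra t a else 0) +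
        sg s * (tot (base f S t) u + z) =
        sg s * (base f S t a + tot (base f S t) u + ((if p = 1 then extra t a else 0) + z)) := by
      ring
    rw [e] at this
    exact this

theorem run_of_path (q q' : (testWA f S B hB hB' hT).Q) (u : List (Ltr V E)) (W : ℤ)
    (h : Path (testWA f S B hB hB' hT) q u q' W) :
    q'.1 = q.1 ∧ q'.2.1 = q.2.1 ∧ ∃ z, Run (fun a => a = mark q.1) (extra q.1) q.2.2 u q'.2.2 z ∧
      W = sg q.2.1 * (tot (base f S q.1) u + z) := by
  induction h with
  | nil q => exact ⟨rfl, rfl, 0, Run.nil _, by rw [tot_nil]; ring⟩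
  | @cons q q1 q2 a w W u h1 h2 ih =>
    obtain ⟨a1, a2, a3, rfl⟩ := h1
    obtain ⟨b1, b2, z, b3, rfl⟩ := ih
    rw [a1] at b1 b3
    rw [a2] at b2
    refine ⟨b1, b2, _, Run.cons a3 b3, ?_⟩
    rw [a1, a2, tot_cons]
    ring

/-- all runs of all tests have total zero iff there is no positive run -/
theorem pos_iff (u : List (Ltr V E)) :
    ¬ (testWA f S B hB hB' hT).Pos u ↔ ∀ (t : Tst E) (p r : Fin 3) (z : ℤ), p ≠ 2 → okf t r →
      Run (fun a => a = mark t) (extra t) p u r z → tot (base f S t) u + z + cst S t = 0 := by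
  constructor
  · intro h t p r z hp hr hrun
    by_contra hne
    apply h
    rcases lt_or_gt_of_ne hne with hlt | hgt
    · refine ⟨(t, false, p), (t, false, r), _, _, hp, path_of_run f S B hB hB' hT t false p r u z
        hrun, ⟨hr, rfl⟩, ?_⟩
      simp only [sg, Bool.false_eq_true, if_false]
      linarith
    · refine ⟨(t, true, p), (t, true, r), _, _, hp, path_of_run f S B hB hB' hT t true p r u z
        hrun, ⟨hr, rfl⟩, ?_⟩
      simp only [sg, if_true]
      linarith
  · rintro h ⟨q0, q, W, w, h1, h2, ⟨h3, rfl⟩, h4⟩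
    obtain ⟨a1, a2, z, a3, rfl⟩ := run_of_path f S B hB hB' hT q0 q u W h2
    rw [a1] at h3 h4
    rw [a2] at h4
    have := h q0.1 q0.2.2 q.2.2 z h1 h3 a3
    have e : sg q0.2.1 * (tot (base f S q0.1) u + z) + sg q0.2.1 * cst S q0.1 =
        sg q0.2.1 * (tot (base f S q0.1) u + z + cst S q0.1) := by ring
    rw [e, this, mul_zero] at h4
    exact lt_irrefl _ h4

end

end Pool.Agent.Helper844.OL
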