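import Mathlib
import Pool.Agent.Helper844.OL.Tests

set_option autoImplicit false

namespace Pool.Agent.Helper844.OL

open Pool.Agent.Helper844.Sys

theorem tot_add {K : Type} (c d : K → ℤ) (u : List K) :
    tot (fun a => c a + d a) u = tot c u + tot d u := by
  induction u with
  | nil => simp [tot]
  | cons a u ih => rw [tot_cons, tot_cons, tot_cons, ih]; ring

theorem tot_sub {K : Type} (c d : K → ℤ) (u : List K) :
    tot (fun a => c a - d a) u = tot c u - tot d u := by
  induction u with
  | nil => simp [tot]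
  | cons a u ih => rw [tot_cons, tot_cons, tot_cons, ih]; ring

theorem tot_mul {K : Type} (x : ℤ) (c : K → ℤ) (u : List K) :
    tot (fun a => x * c a) u = x * tot c u := by
  induction u with
  | nil => simp [tot]
  | cons a u ih => rw [tot_cons, tot_cons, ih]; ring

theorem tot_zero {K : Type} (c : K → ℤ) (u : List K) (h : ∀ a ∈ u, c a = 0) : tot c u = 0 := by
  induction u with
  | nil => rfl
  | cons a u ih =>
    rw [tot_cons, ih (fun b hb => h b (List.mem_cons_of_mem _ hb)), h a List.mem_cons_self]
    rfl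

theorem tot_replicate {K : Type} (c : K → ℤ) (n : ℕ) (a : K) :
    tot c (List.replicate n a) = n * c a := by
  induction n with
  | zero => simp [tot]
  | succ n ih => rw [List.replicate_succ, tot_cons, ih]; push_cast; ring

theorem tot_flatMap {K ι : Type} (c : K → ℤ) (l : List ι) (F : ι → List K) :
    tot c (l.flatMap F) = (l.map (fun i => tot c (F i))).sum := by
  induction l with
  | nil => rfl
  | cons i l ih => rw [List.flatMap_cons, tot_append, ih, List.map_cons, List.sum_cons]

open Classical in
noncomputable def vw {V E : Type} (v : V) : Ltr V E → ℤ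
  | .var v' s => if v' = v then sg s else 0
  | _ => 0

open Classical in
noncomputable def bw {V E : Type} (q : E) (g : Bool) : Ltr V E → ℤ
  | .be q' g' => if q' = q ∧ g' = g then 1 else 0
  | _ => 0

section

variable {V E : Type} (f : V) (S : E → Eqn V)

theorem base_eq (q : E) : base f S (.eq q) = fun a =>
    ((S q).e * (extra (.blk q true) a - extra (.blk q false) a) + (S q).a * vw (S q).k a) +
      ((S q).b * vw (S q).l a + (S q).c * vw (S q).m a) := by
  funext a
  rcases a with ⟨v, s⟩ | ⟨q', g, s⟩ | ⟨q', g⟩ | _ | _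
  · simp only [base, extra, vw]
    split_ifs <;> ring
  · simp only [base, extra, vw]
    by_cases h : q' = q
    · cases g <;> cases s <;> simp [h, sg]
    · simp [h]
  · simp [base, extra, vw]
  · simp [base, extra, vw]
  · simp [base, extra, vw]

theorem base_cnt (q : E) : base f S (.cnt q) = fun a =>
    (bw q true a - bw q false a) - vw (S q).j a := by
  funext a
  rcases a with ⟨v, s⟩ | ⟨q', g, s⟩ | ⟨q', g⟩ | _ | _
  · simp only [base, bw, vw]
    split_ifs <;> ring
  · simp [base, bw, vw]
  · simp only [base, bw, vw]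
    by_cases h : q' = q
    · cases g <;> simp [h, sg]
    · simp [h]
  · simp [base, bw, vw]
  · simp [base, bw, vw]

theorem base_par : base f S .par = vw f := by
  funext a
  rcases a with ⟨v, s⟩ | ⟨q', g, s⟩ | ⟨q', g⟩ | _ | _ <;> simp [base, vw]

theorem base_blk (q : E) (g : Bool) : base f S (.blk q g) = fun a => (-1) * vw (S q).i a := by
  funext a
  rcases a with ⟨v, s⟩ | ⟨q', g, s⟩ | ⟨q', g⟩ | _ | _
  · simp only [base, vw]
    split_ifs <;> ring
  all_goals simp [base, vw]

end

section runs

variable {K : Type} {mk : K → Prop} {ex : K → ℤ}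

theorem run_stay0 (u : List K) : Run mk ex 0 u 0 0 := by
  induction u with
  | nil => exact Run.nil _
  | cons a u ih =>
    have h : stp (mk a) 0 0 := by
      by_cases h : mk a
      · exact Or.inr ⟨h, Or.inl ⟨rfl, Or.inl rfl⟩⟩
      · exact Or.inl ⟨h, rfl⟩
    have := Run.cons (ex := ex) h ih
    simpa using this

theorem stp_two {m : Prop} {p : Fin 3} : stp m 2 p ↔ p = 2 := by
  constructor
  · rintro (⟨-, h⟩ | ⟨-, ⟨h, -⟩ | ⟨-, h⟩⟩)
    · exact h
    · exact absurd h (by decide)
    · exact h
  · rintro rfl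
    by_cases h : m
    · exact Or.inr ⟨h, Or.inr ⟨by decide, rfl⟩⟩
    · exact Or.inl ⟨h, rfl⟩

theorem run_two (u : List K) (r : Fin 3) (z : ℤ) : Run mk ex 2 u r z ↔ r = 2 ∧ z = 0 := by
  induction u generalizing z with
  | nil => exact run_nil
  | cons a u ih =>
    rw [run_cons]
    constructor
    · rintro ⟨p1, z1, h1, h2, rfl⟩
      rw [stp_two] at h1
      subst h1
      obtain ⟨rfl, rfl⟩ := (ih _).1 h2
      simp
    · rintro ⟨rfl, rfl⟩
      exact ⟨2, 0, stp_two.2 rfl, (ih _).2 ⟨rfl, rfl⟩, by simp⟩

/-- a word without marks -/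
theorem run_nomark (u : List K) (hu : ∀ a ∈ u, ¬ mk a) (p r : Fin 3) (z : ℤ) :
    Run mk ex p u r z ↔ r = p ∧ z = if p = 1 then tot ex u else 0 := by
  induction u generalizing z with
  | nil =>
    rw [run_nil, tot_nil]
    simp
  | cons a u ih =>
    rw [run_cons]
    constructor
    · rintro ⟨p1, z1, h1, h2, rfl⟩
      have hp : p1 = p := by
        rcases h1 with ⟨-, h⟩ | ⟨h, -⟩
        · exact h
        · exact absurd h (hu a List.mem_cons_self)
      subst hp
      obtain ⟨rfl, rfl⟩ := (ih (fun b hb => hu b (List.mem_cons_of_mem _ hb)) _).1 h2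
      refine ⟨rfl, ?_⟩
      rw [tot_cons]
      split_ifs <;> ring
    · rintro ⟨rfl, rfl⟩
      refine ⟨r, _, Or.inl ⟨hu a List.mem_cons_self, rfl⟩,
        (ih (fun b hb => hu b (List.mem_cons_of_mem _ hb)) _).2 ⟨rfl, rfl⟩, ?_⟩
      rw [tot_cons]
      split_ifs <;> ring

theorem run_noex (hex : ∀ a, ex a = 0) (u : List K) (p r : Fin 3) (z : ℤ)
    (h : Run mk ex p u r z) : z = 0 := by
  induction h with
  | nil => rfl
  | cons h1 h2 ih => rw [ih, hex]; simp

open Classical in
theorem block_sum (hmk : ∀ a, mk a → ex a = 0) (X : ℤ) (u : List K) (Y : ℤ)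
    (h0 : ∀ r z, r ≠ 0 → Run mk ex 0 u r z → z = X)
    (h1 : ∀ r z, r ≠ 0 → Run mk ex 1 u r z → z = Y) :
    tot ex u = Y + X * tot (fun a => if mk a then 1 else 0) u := by
  induction u generalizing Y with
  | nil =>
    have := h1 1 0 (by decide) (Run.nil _)
    rw [tot_nil, tot_nil, ← this]
    ring
  | cons a u ih =>
    by_cases ha : mk a
    · have e1 : Run mk ex 1 (a :: u) 2 ((if (1 : Fin 3) = 1 then ex a else 0) + 0) :=
        Run.cons (Or.inr ⟨ha, Or.inr ⟨by decide, rfl⟩⟩) ((run_two _ _ _).2 ⟨rfl, rfl⟩)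
      have e2 := h1 _ _ (by decide) e1
      rw [if_pos rfl, hmk a ha] at e2
      have e3 := ih X (fun r z hr hz => h0 r z hr (by
          have := Run.cons (ex := ex) (Or.inr ⟨ha, Or.inl ⟨rfl, Or.inl rfl⟩⟩ : stp (mk a) 0 0) hz
          simpa using this))
        (fun r z hr hz => h0 r z hr (by
          have := Run.cons (ex := ex) (Or.inr ⟨ha, Or.inl ⟨rfl, Or.inr rfl⟩⟩ : stp (mk a) 0 1) hz
          simpa using this))
      rw [tot_cons, tot_cons, e3, hmk a ha, if_pos ha, ← e2]
      ring
    · have e3 := ih (Y - ex a) (fun r z hr hz => h0 r z hr (by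
          have := Run.cons (ex := ex) (Or.inl ⟨ha, rfl⟩ : stp (mk a) 0 0) hz
          simpa using this))
        (fun r z hr hz => by
          have := Run.cons (ex := ex) (Or.inl ⟨ha, rfl⟩ : stp (mk a) 1 1) hz
          have := h1 r _ hr this
          rw [if_pos rfl] at this
          linarith)
      rw [tot_cons, tot_cons, e3, if_neg ha]
      ring

end runs

/-- the suffix coding the parameter -/
def suf {V E : Type} (n : ℕ) : List (Ltr V E) := .dol :: List.replicate n .ax

section

variable {V E : Type} (f : V) (S : E → Eqn V)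

/-- all runs of all tests have total zero -/
def AllZero (u : List (Ltr V E)) : Prop :=
  ∀ (t : Tst E) (p r : Fin 3) (z : ℤ), p ≠ 2 → okf t r →
    Run (fun a => a = mark t) (extra t) p u r z → tot (base f S t) u + z + cst S t = 0

theorem solution_of_allZero (n : ℕ) (w : List (Ltr V E)) (h : AllZero f S (w ++ suf n)) :
    ∃ x : V → ℤ, x f = 1 - 4 * n ∧ ∀ q, (S q).Holds x := by
  set u := w ++ suf n with hu
  refine ⟨fun v => tot (vw v) u, ?_, ?_⟩
  · have hrun : Run (fun a : Ltr V E => a = mark (.par : Tst E)) (extra .par) 0 u 1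
        (0 + (0 + (n * 4 : ℤ))) := by
      rw [hu, run_append]
      refine ⟨0, 0, 0 + n * 4, run_stay0 w, ?_, rfl⟩
      have h2 : Run (fun a : Ltr V E => a = mark (.par : Tst E)) (extra .par) 1
          (List.replicate n .ax) 1 (n * 4 : ℤ) := by
        rw [run_nomark _ (fun a ha => by
          rw [List.eq_of_mem_replicate ha]
          simp [mark])]
        refine ⟨rfl, ?_⟩
        rw [if_pos rfl, tot_replicate]
        rfl
      have := Run.cons (ex := extra .par) (mk := fun a : Ltr V E => a = mark (.par : Tst E))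
        (a := .dol) (Or.inr ⟨rfl, Or.inl ⟨rfl, Or.inr rfl⟩⟩ : stp _ 0 1) h2
      simpa [suf] using this
    have := h .par 0 1 _ (by decide) rfl hrun
    rw [base_par] at this
    simp only [cst] at this
    linarith
  · intro q
    have h1 := h (.eq q) 0 0 0 (by decide) trivial (run_stay0 u)
    have h2 := h (.cnt q) 0 0 0 (by decide) trivial (run_stay0 u)
    have h3 : ∀ g, tot (extra (.blk q g) : Ltr V E → ℤ) u = tot (vw (S q).i) u +
        tot (vw (S q).i) u * tot (bw q g) u := by
      intro g
      have hz : ∀ (p r : Fin 3) (z : ℤ), p ≠ 2 → r ≠ 0 →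
          Run (fun a : Ltr V E => a = mark (.blk q g)) (extra (.blk q g)) p u r z →
          z = tot (vw (S q).i) u := by
        intro p r z hp hr hrun
        have := h (.blk q g) p r z hp hr hrun
        rw [base_blk, tot_mul] at this
        simp only [cst] at this
        linarith
      have := block_sum (mk := fun a : Ltr V E => a = mark (.blk q g)) (ex := extra (.blk q g))
        (by
          rintro a rfl
          simp [extra, mark]) _ u _ (fun r z hr hrun => hz 0 r z (by decide) hr hrun)
        (fun r z hr hrun => hz 1 r z (by decide) hr hrun)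
      rw [this]
      congr 2
      congr 1
      funext a
      rcases a with ⟨v, s⟩ | ⟨q', g', s⟩ | ⟨q', g'⟩ | _ | _
      · simp [mark, bw]
      · simp [mark, bw]
      · by_cases hqg : q' = q ∧ g' = g
        · obtain ⟨rfl, rfl⟩ := hqg
          simp [mark, bw]
        · have hne : ¬ (Ltr.be q' g' : Ltr V E) = mark (.blk q g) := by
            intro h
            simp only [mark, Ltr.be.injEq] at h
            exact hqg h
          rw [if_neg hne]
          simp only [bw]
          rw [if_neg hqg]
      · simp [mark, bw]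
      · simp [mark, bw]
    rw [base_eq, tot_add, tot_add, tot_mul, tot_sub, tot_mul, tot_add, tot_mul, tot_mul,
      h3 true, h3 false] at h1
    rw [base_cnt, tot_sub, tot_sub] at h2
    simp only [cst] at h1 h2
    simp only [Eqn.Holds]
    have h4 : tot (vw (S q).j) u = tot (bw q true) u - tot (bw q false) u := by linarith
    rw [h4]
    linarith [h1]

/-- a block of `|x|` signed letters -/
def blkw (F : Bool → Ltr V E) (x : ℤ) : List (Ltr V E) :=
  List.replicate x.natAbs (F (decide (0 ≤ x)))

theorem tot_blkw (F : Bool → Ltr V E) (x : ℤ) (c : Ltr V E → ℤ) (hc : ∀ s, c (F s) = sg s * c (F true)) :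
    tot c (blkw F x) = x * c (F true) := by
  rw [blkw, tot_replicate, hc]
  rcases le_or_gt 0 x with h | h
  · rw [decide_eq_true h]
    simp only [sg, if_true, one_mul]
    rw [Int.natAbs_of_nonneg h]
  · rw [decide_eq_false (not_le.2 h)]
    simp only [sg, Bool.false_eq_true, if_false]
    have : (x.natAbs : ℤ) = - x := by omega
    rw [this]
    ring

/-- number of marks of a gadget -/
def gm (g : Bool) (y : ℤ) : ℕ := if g then y.toNat else (-y).toNat

theorem gm_sub (y : ℤ) : (gm true y : ℤ) - gm false y = y := by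
  simp only [gm, if_true, Bool.false_eq_true, if_false]
  omega

def gad (x : V → ℤ) (qg : E × Bool) : List (Ltr V E) :=
  blkw (.al qg.1 qg.2) (x (S qg.1).i) ++
    (List.replicate (gm qg.2 (x (S qg.1).j)) (.be qg.1 qg.2 :: blkw (.al qg.1 qg.2)
      (x (S qg.1).i))).flatten

theorem mem_blkw (F : Bool → Ltr V E) (x : ℤ) (a : Ltr V E) (h : a ∈ blkw F x) :
    ∃ s, a = F s := ⟨_, List.eq_of_mem_replicate h⟩

theorem mem_gad (x : V → ℤ) (qg : E × Bool) (a : Ltr V E) (h : a ∈ gad S x qg) :
    (∃ s, a = .al qg.1 qg.2 s) ∨ a = .be qg.1 qg.2 := by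
  rw [gad, List.mem_append] at h
  rcases h with h | h
  · left; exact mem_blkw _ _ _ h
  · rw [List.mem_flatten] at h
    obtain ⟨l, hl, ha⟩ := h
    rw [List.eq_of_mem_replicate hl, List.mem_cons] at ha
    rcases ha with rfl | ha
    · right; rfl
    · left; exact mem_blkw _ _ _ ha

theorem tot_replicate_flatten {K : Type} (c : K → ℤ) (n : ℕ) (l : List K) :
    tot c (List.replicate n l).flatten = n * tot c l := by
  induction n with
  | zero => simp [tot]
  | succ n ih =>
    rw [List.replicate_succ, List.flatten_cons, tot_append, ih]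
    push_cast; ring

theorem tot_gad (x : V → ℤ) (qg : E × Bool) (c : Ltr V E → ℤ)
    (hc : ∀ s, c (.al qg.1 qg.2 s) = sg s * c (.al qg.1 qg.2 true)) :
    tot c (gad S x qg) = x (S qg.1).i * (gm qg.2 (x (S qg.1).j) + 1) * c (.al qg.1 qg.2 true) +
      gm qg.2 (x (S qg.1).j) * c (.be qg.1 qg.2) := by
  rw [gad, tot_append, tot_replicate_flatten, tot_cons, tot_blkw _ _ _ hc]
  ring

open Classical in
/-- the word of a solution -/
noncomputable def sol [Fintype V] [Fintype E] (x : V → ℤ) : List (Ltr V E) :=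
  (Finset.univ : Finset (E × Bool)).toList.flatMap (gad S x) ++
    (Finset.univ : Finset V).toList.flatMap (fun v => blkw (.var v) (x v))

theorem tot_sol [Fintype V] [Fintype E] (x : V → ℤ) (c : Ltr V E → ℤ)
    (hc1 : ∀ q g s, c (.al q g s) = sg s * c (.al q g true))
    (hc2 : ∀ v s, c (.var v s) = sg s * c (.var v true)) :
    tot c (sol S x) = ∑ qg : E × Bool,
      (x (S qg.1).i * (gm qg.2 (x (S qg.1).j) + 1) * c (.al qg.1 qg.2 true) +
        gm qg.2 (x (S qg.1).j) * c (.be qg.1 qg.2)) + ∑ v : V, x v * c (.var v true) := by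
  rw [sol, tot_append, tot_flatMap, tot_flatMap, Finset.sum_map_toList, Finset.sum_map_toList]
  congr 1
  · exact Finset.sum_congr rfl (fun qg _ => tot_gad S x qg c (hc1 _ _))
  · exact Finset.sum_congr rfl (fun v _ => tot_blkw _ _ _ (hc2 _))

theorem tot_suf (c : Ltr V E → ℤ) (n : ℕ) : tot c (suf n) = c .dol + n * c .ax := by
  rw [suf, tot_cons, tot_replicate]

theorem tot_vw [Fintype V] [Fintype E] (x : V → ℤ) (n : ℕ) (v : V) :
    tot (vw v) (sol S x ++ suf n) = x v := by
  classical
  rw [tot_append, tot_suf, tot_sol]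
  · simp only [vw, mul_zero, add_zero, Finset.sum_const_zero, zero_add, sg, if_true, mul_ite,
      mul_one, Finset.sum_ite_eq', Finset.mem_univ]
  · intro q g s; simp [vw]
  · intro v' s
    simp only [vw, sg, if_true]
    split_ifs <;> simp

theorem tot_al [Fintype V] [Fintype E] (x : V → ℤ) (n : ℕ) (q : E) (g : Bool) :
    tot (extra (.blk q g)) (sol S x ++ suf n) = x (S q).i * (gm g (x (S q).j) + 1) := by
  classical
  rw [tot_append, tot_suf, tot_sol]
  · have : ∀ qg : E × Bool,
        (x (S qg.1).i * (gm qg.2 (x (S qg.1).j) + 1) *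
          (extra (.blk q g) (Ltr.al qg.1 qg.2 true : Ltr V E)) +
        gm qg.2 (x (S qg.1).j) * (extra (.blk q g) (Ltr.be qg.1 qg.2 : Ltr V E)) : ℤ) =
        if qg = (q, g) then x (S q).i * (gm g (x (S q).j) + 1) else 0 := by
      rintro ⟨q', g'⟩
      by_cases h : (q', g') = (q, g)
      · obtain ⟨rfl, rfl⟩ := Prod.mk.injEq _ _ _ _ ▸ h
        simp [extra, sg]
      · rw [if_neg h]
        have h' : ¬ (q' = q ∧ g' = g) := by
          rintro ⟨rfl, rfl⟩
          exact h rfl
        simp [extra, h']
    rw [Finset.sum_congr rfl (fun qg _ => this qg)]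
    simp [extra]
  · intro q' g' s
    simp only [extra, sg, if_true]
    split_ifs <;> simp
  · intro v' s; simp [extra]

theorem tot_be [Fintype V] [Fintype E] (x : V → ℤ) (n : ℕ) (q : E) (g : Bool) :
    tot (bw q g) (sol S x ++ suf n) = gm g (x (S q).j) := by
  classical
  rw [tot_append, tot_suf, tot_sol]
  · have : ∀ qg : E × Bool,
        (x (S qg.1).i * (gm qg.2 (x (S qg.1).j) + 1) *
          (bw q g (Ltr.al qg.1 qg.2 true : Ltr V E)) +
        gm qg.2 (x (S qg.1).j) * (bw q g (Ltr.be qg.1 qg.2 : Ltr V E)) : ℤ) =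
        if qg = (q, g) then (gm g (x (S q).j) : ℤ) else 0 := by
      rintro ⟨q', g'⟩
      by_cases h : (q', g') = (q, g)
      · obtain ⟨rfl, rfl⟩ := Prod.mk.injEq _ _ _ _ ▸ h
        simp [bw]
      · rw [if_neg h]
        have h' : ¬ (q' = q ∧ g' = g) := by
          rintro ⟨rfl, rfl⟩
          exact h rfl
        simp [bw, h']
    rw [Finset.sum_congr rfl (fun qg _ => this qg)]
    simp [bw]
  · intro q' g' s
    simp [bw]
  · intro v' s; simp [bw]

/-- runs of the block test inside its gadget -/
theorem run_gad (x : V → ℤ) (q : E) (g : Bool) (p r : Fin 3) (z : ℤ) (hp : p ≠ 2) (hr : r ≠ 0)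
    (h : Run (fun a : Ltr V E => a = mark (.blk q g)) (extra (.blk q g)) p (gad S x (q, g)) r z) :
    z = x (S q).i := by
  classical
  have hA : ∀ (p r : Fin 3) (z : ℤ), Run (fun a : Ltr V E => a = mark (.blk q g))
      (extra (.blk q g)) p (blkw (.al q g) (x (S q).i)) r z ↔
      r = p ∧ z = if p = 1 then x (S q).i else 0 := by
    intro p r z
    rw [run_nomark _ (fun a ha => by
      obtain ⟨s, rfl⟩ := mem_blkw _ _ _ ha
      simp [mark])]
    rw [tot_blkw]
    · simp [extra, sg]
    · intro s
      simp [extra, sg]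
  have hG : ∀ (m : ℕ) (r : Fin 3) (z : ℤ),
      (r ≠ 0 → Run (fun a : Ltr V E => a = mark (.blk q g)) (extra (.blk q g)) 0
        (List.replicate m (.be q g :: blkw (.al q g) (x (S q).i))).flatten r z →
        z = x (S q).i) ∧
      (Run (fun a : Ltr V E => a = mark (.blk q g)) (extra (.blk q g)) 1
        (List.replicate m (.be q g :: blkw (.al q g) (x (S q).i))).flatten r z → z = 0) := by
    intro m
    induction m with
    | zero =>
      intro r z
      constructor
      · intro hr h
        exact absurd (run_nil.1 h).1 hr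
      · intro h
        exact (run_nil.1 h).2
    | succ m ih =>
      intro r z
      rw [List.replicate_succ, List.flatten_cons, List.cons_append]
      constructor
      · intro hr h
        obtain ⟨p1, z1, h1, h2, rfl⟩ := run_cons.1 h
        obtain ⟨p2, z2, z3, h3, h4, rfl⟩ := (run_append _ _ _ _ _).1 h2
        obtain ⟨rfl, rfl⟩ := (hA _ _ _).1 h3
        rcases h1 with ⟨h1, -⟩ | ⟨-, ⟨-, rfl | rfl⟩ | ⟨h1, -⟩⟩
        · exact absurd rfl h1
        · have := (ih r z3).1 hr h4
          simp [this]
        · have := (ih r z3).2 h4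
          simp [this]
        · exact absurd rfl h1
      · intro h
        obtain ⟨p1, z1, h1, h2, rfl⟩ := run_cons.1 h
        rcases h1 with ⟨h1, -⟩ | ⟨-, ⟨h1, -⟩ | ⟨-, rfl⟩⟩
        · exact absurd rfl h1
        · exact absurd h1 (by decide)
        · obtain ⟨-, rfl⟩ := (run_two _ _ _).1 h2
          simp [extra]
  rw [gad, run_append] at h
  obtain ⟨p1, z1, z2, h1, h2, rfl⟩ := h
  obtain ⟨rfl, rfl⟩ := (hA _ _ _).1 h1
  have hp' : p1 = 0 ∨ p1 = 1 := (by decide : ∀ p : Fin 3, p ≠ 2 → p = 0 ∨ p = 1) p1 hp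
  rcases hp' with rfl | rfl
  · have := (hG _ r z2).1 hr h2
    simp [this]
  · have := (hG _ r z2).2 h2
    simp [this]

theorem allZero_of_solution [Fintype V] [Fintype E] (n : ℕ) (x : V → ℤ) (hf : x f = 1 - 4 * n)
    (hx : ∀ q, (S q).Holds x) : AllZero f S (sol S x ++ suf n) := by
  classical
  intro t p r z hp hr hrun
  rcases t with q | q | _ | ⟨q, g⟩
  · have hz := run_noex (fun a => by rcases a <;> simp [extra]) _ _ _ _ hrun
    rw [base_eq, tot_add, tot_add, tot_mul, tot_sub, tot_mul, tot_add, tot_mul, tot_mul,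
      tot_al, tot_al, tot_vw, tot_vw, tot_vw, hz]
    have h1 := gm_sub (x (S q).j)
    have h2 := hx q
    simp only [Eqn.Holds] at h2
    simp only [cst]
    have h3 : (x (S q).i * ((gm true (x (S q).j) : ℤ) + 1) -
        x (S q).i * ((gm false (x (S q).j) : ℤ) + 1)) = x (S q).i * x (S q).j := by
      calc _ = x (S q).i * ((gm true (x (S q).j) : ℤ) - gm false (x (S q).j)) := by ring
        _ = _ := by rw [h1]
    rw [h3]
    linarith
  · have hz := run_noex (fun a => by rcases a <;> simp [extra]) _ _ _ _ hrun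
    rw [base_cnt, tot_sub, tot_sub, tot_be, tot_be, tot_vw, hz]
    have h1 := gm_sub (x (S q).j)
    simp only [cst]
    linarith
  · -- the parameter test
    have hr' : r = 1 := hr
    subst hr'
    rw [suf, run_append] at hrun
    obtain ⟨p1, z1, z2, h1, h2, rfl⟩ := hrun
    obtain ⟨p2, z3, h3, h4, rfl⟩ := run_cons.1 h2
    have hn : ∀ a ∈ List.replicate n (.ax : Ltr V E), ¬ a = mark (.par : Tst E) := by
      intro a ha
      rw [List.eq_of_mem_replicate ha]
      simp [mark]
    obtain ⟨h5, rfl⟩ := (run_nomark _ hn _ _ _).1 h4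
    subst h5
    have hp1 : p1 = 0 := by
      rcases h3 with ⟨h3, -⟩ | ⟨-, ⟨h3, -⟩ | ⟨-, h3⟩⟩
      · exact absurd rfl h3
      · exact h3
      · exact absurd h3 (by decide)
    subst hp1
    have hw : ∀ a ∈ sol S x, ¬ a = mark (.par : Tst E) := by
      intro a ha
      rw [sol, List.mem_append, List.mem_flatMap, List.mem_flatMap] at ha
      rcases ha with ⟨qg, -, ha⟩ | ⟨v, -, ha⟩
      · rcases mem_gad S x qg a ha with ⟨s, rfl⟩ | rfl <;> simp [mark]
      · obtain ⟨s, rfl⟩ := mem_blkw _ _ _ ha
        simp [mark]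
    obtain ⟨h6, rfl⟩ := (run_nomark _ hw _ _ _).1 h1
    rw [← h6, base_par, tot_vw, tot_replicate, hf]
    simp only [cst, extra, if_true]
    push_cast
    ring
  · -- block tests
    rw [base_blk, tot_mul, tot_vw]
    simp only [cst]
    suffices h : z = x (S q).i by rw [h]; ring
    have hmem : (q, g) ∈ (Finset.univ : Finset (E × Bool)).toList := by simp
    obtain ⟨l1, l2, hl⟩ := List.append_of_mem hmem
    have hnd : (l1 ++ (q, g) :: l2).Nodup := by
      rw [← hl]
      exact Finset.nodup_toList _
    have hn1 : (q, g) ∉ l1 := by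
      intro h
      rw [List.nodup_append] at hnd
      exact hnd.2.2 _ h _ List.mem_cons_self rfl
    have hn2 : (q, g) ∉ l2 := by
      rw [List.nodup_append] at hnd
      exact (List.nodup_cons.1 hnd.2.1).1
    have hneu : ∀ l : List (E × Bool), (q, g) ∉ l → ∀ a ∈ l.flatMap (gad S x),
        ¬ a = mark (.blk q g) ∧ extra (.blk q g) a = 0 := by
      intro l hl a ha
      rw [List.mem_flatMap] at ha
      obtain ⟨qg, h1, h2⟩ := ha
      have h3 : ¬ (qg.1 = q ∧ qg.2 = g) := by
        rintro ⟨rfl, rfl⟩
        exact hl h1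
      rcases mem_gad S x qg a h2 with ⟨s, rfl⟩ | rfl
      · simp [mark, extra, h3]
      · simp [mark, extra, h3]
    have hvar : ∀ a ∈ (Finset.univ : Finset V).toList.flatMap (fun v => blkw (.var v) (x v)) ++
        (suf n : List (Ltr V E)), ¬ a = mark (.blk q g) ∧ extra (.blk q g) a = 0 := by
      intro a ha
      rw [List.mem_append, List.mem_flatMap, suf, List.mem_cons] at ha
      rcases ha with ⟨v, -, ha⟩ | rfl | ha
      · obtain ⟨s, rfl⟩ := mem_blkw _ _ _ ha
        simp [mark, extra]
      · simp [mark, extra]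
      · rw [List.eq_of_mem_replicate ha]
        simp [mark, extra]
    have hdec : sol S x ++ suf n = l1.flatMap (gad S x) ++ (gad S x (q, g) ++
        (l2.flatMap (gad S x) ++ ((Finset.univ : Finset V).toList.flatMap
          (fun v => blkw (.var v) (x v)) ++ suf n))) := by
      rw [sol, hl, List.flatMap_append, List.flatMap_cons]
      simp only [List.append_assoc]
    rw [hdec] at hrun
    obtain ⟨p1, z1, z2, h1, h2, rfl⟩ := (run_append _ _ _ _ _).1 hrun
    obtain ⟨rfl, rfl⟩ := (run_nomark _ (fun a ha => (hneu l1 hn1 a ha).1) _ _ _).1 h1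
    rw [tot_zero _ _ (fun a ha => (hneu l1 hn1 a ha).2), ite_self, zero_add]
    obtain ⟨p2, z3, z4, h3, h4, rfl⟩ := (run_append _ _ _ _ _).1 h2
    have hrest : ∀ a ∈ l2.flatMap (gad S x) ++ ((Finset.univ : Finset V).toList.flatMap
        (fun v => blkw (.var v) (x v)) ++ (suf n : List (Ltr V E))),
        ¬ a = mark (.blk q g) ∧ extra (.blk q g) a = 0 := by
      intro a ha
      rcases List.mem_append.1 ha with ha | ha
      · exact hneu l2 hn2 a ha
      · exact hvar a ha
    obtain ⟨rfl, rfl⟩ := (run_nomark _ (fun a ha => (hrest a ha).1) _ _ _).1 h4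
    rw [tot_zero _ _ (fun a ha => (hrest a ha).2), ite_self, add_zero]
    exact run_gad S x q g _ _ _ hp hr h3

end

end Pool.Agent.Helper844.OL
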