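import Mathlib
import Pool.Agent.Helper844.OL.Conc

set_option autoImplicit false

namespace Pool.Agent.Helper844.OL

/-- derivation sequences -/
def Sq (Rl : ℕ → List ℕ → Prop) (om : List ℕ) : Set (ℕ → List ℕ) :=
  {s | s 0 = om ∧ ∀ n, HV Rl (s n) (s (n + 1))}

theorem HV.mono {R1 R2 : ℕ → List ℕ → Prop} (h : ∀ a w, R1 a w → R2 a w) {v s : List ℕ}
    (hv : HV R1 v s) : HV R2 v s := by
  induction hv with
  | nil => exact HV.nil
  | cons h1 _ ih => exact HV.cons (h _ _ h1) ih

theorem HV.mem {Rl : ℕ → List ℕ → Prop} {P : ℕ → Prop} (hP : ∀ a w, P a → Rl a w → ∀ x ∈ w, P x)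
    {v s : List ℕ} (hv : HV Rl v s) (h : ∀ a ∈ v, P a) : ∀ x ∈ s, P x := by
  induction hv with
  | nil => intro x hx; simp at hx
  | @cons a v w s h1 h2 ih =>
    intro x hx
    rcases List.mem_append.1 hx with hx | hx
    · exact hP a w (h a List.mem_cons_self) h1 x hx
    · exact ih (fun b hb => h b (List.mem_cons_of_mem _ hb)) x hx

/-- every word over the domain starts a derivation sequence -/
theorem exists_seq {Rl : ℕ → List ℕ → Prop} {P : ℕ → Prop}
    (hP : ∀ a w, P a → Rl a w → ∀ x ∈ w, P x) (hT : ∀ a, P a → ∃ w, Rl a w)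
    (om : List ℕ) (hom : ∀ a ∈ om, P a) : ∃ s, s ∈ Sq Rl om := by
  have hstep : ∀ v : List ℕ, (∀ a ∈ v, P a) → ∃ s, HV Rl v s := by
    intro v
    induction v with
    | nil => intro _; exact ⟨[], HV.nil⟩
    | cons a v ih =>
      intro h
      obtain ⟨w, hw⟩ := hT a (h a List.mem_cons_self)
      obtain ⟨s, hs⟩ := ih (fun b hb => h b (List.mem_cons_of_mem _ hb))
      exact ⟨w ++ s, HV.cons hw hs⟩
  choose g hg using hstep
  let W := {v : List ℕ // ∀ a ∈ v, P a}
  let nx : W → W := fun v => ⟨g v.1 v.2, HV.mem hP (hg v.1 v.2) v.2⟩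
  refine ⟨fun n => (nx^[n] ⟨om, hom⟩).1, rfl, ?_⟩
  intro n
  simp only [Function.iterate_succ_apply']
  exact hg _ _

theorem sq_eq_iff {R1 R2 : ℕ → List ℕ → Prop} {P : ℕ → Prop} (h12 : ∀ a w, R1 a w → R2 a w)
    (hP : ∀ a w, P a → R2 a w → ∀ x ∈ w, P x) (hT : ∀ a, P a → ∃ w, R2 a w)
    (om : List ℕ) (hom : ∀ a ∈ om, P a) :
    Sq R1 om = Sq R2 om ↔ ∀ v, Relation.ReflTransGen (HV R1) om v → ∀ z, HV R2 v z → HV R1 v z := by
  constructor
  · intro heq v hv z hz
    have key : ∀ x, Relation.ReflTransGen (HV R1) x v → (∀ a ∈ x, P a) →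
        ∃ s ∈ Sq R2 x, ∃ k, s k = v ∧ s (k + 1) = z := by
      intro x hx
      induction hx using Relation.ReflTransGen.head_induction_on with
      | refl =>
        intro hvP
        obtain ⟨s, hs0, hs⟩ := exists_seq hP hT z (HV.mem hP hz hvP)
        refine ⟨fun n => Nat.casesOn n v s, ⟨rfl, ?_⟩, 0, rfl, hs0⟩
        intro n
        cases n with
        | zero =>
          change HV R2 v (s 0)
          rw [hs0]
          exact hz
        | succ n => exact hs n
      | @head x y hxy _ ih =>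
        intro hxP
        obtain ⟨s, ⟨hs0, hs⟩, k, hk1, hk2⟩ := ih (HV.mem hP (hxy.mono h12) hxP)
        refine ⟨fun n => Nat.casesOn n x s, ⟨rfl, ?_⟩, k + 1, hk1, hk2⟩
        intro n
        cases n with
        | zero =>
          change HV R2 x (s 0)
          rw [hs0]
          exact hxy.mono h12
        | succ n => exact hs n
    obtain ⟨s, hs, k, hk1, hk2⟩ := key om hv hom
    rw [← heq] at hs
    have := hs.2 k
    rw [hk1, hk2] at this
    exact this
  · intro h
    apply Set.Subset.antisymm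
    · rintro s ⟨hs0, hs⟩
      exact ⟨hs0, fun n => (hs n).mono h12⟩
    · rintro s ⟨hs0, hs⟩
      have hr : ∀ n, Relation.ReflTransGen (HV R1) om (s n) := by
        intro n
        induction n with
        | zero => rw [hs0]
        | succ n ih => exact ih.tail (h _ ih _ (hs n))
      exact ⟨hs0, fun n => h _ (hr n) _ (hs n)⟩

namespace Cod

variable {K : Type} (D : Cod K)

/-- the letters of the systems -/
def Dom (a : ℕ) : Prop := a < D.N + 2 ∨ D.isK a

theorem N_pos : 0 < D.N := by have := D.N_ge; omega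

theorem ru_dom (b : Prop) (a : ℕ) (w : List ℕ) (h : D.Ru b a w) : ∀ x ∈ w, D.Dom x := by
  intro x hx
  rcases h with ⟨-, -, h, -⟩ | ⟨ha, -, ⟨r, rfl, hr⟩ | ⟨-, h, -⟩⟩ | ⟨-, ⟨k, rfl⟩ | h | ⟨-, rfl⟩⟩
  · left; have := h x hx; omega
  · rcases List.mem_append.1 hx with hx | hx
    · left; have := hr x hx; omega
    · rw [List.mem_singleton] at hx
      subst hx
      rcases ha with h | rfl
      · right; exact h
      · left; omega
  · left; have := h x hx; omega
  · rw [List.mem_cons, List.mem_singleton] at hx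
    rcases hx with rfl | rfl
    · left; omega
    · right; exact ⟨k, rfl⟩
  · left
    rcases h with rfl | rfl | ⟨q, -, rfl⟩ | ⟨p, rfl, -, hp, -⟩
    · have := mem_rn_lt D.N_pos hx; omega
    · have := mem_rn_lt D.N_pos hx; omega
    · have := mem_rn_lt D.N_pos hx; omega
    · rcases List.mem_append.1 hx with hx | hx
      · have := mem_rn_lt D.N_pos hx; omega
      · have := hp x hx; omega
  · left; have := mem_rn_lt D.N_pos hx; omega

theorem ru_keep (b : Prop) (a : ℕ) (ha : D.isK a ∨ a = D.N) : D.Ru b a [a] := by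
  rw [D.ru_K b a ha]
  exact ⟨by simp [M], Or.inl ⟨[], rfl, by simp⟩⟩

theorem ru_tot (b : Prop) (a : ℕ) (ha : D.Dom a) : ∃ w, D.Ru b a w := by
  rcases ha with ha | ha
  · rcases lt_trichotomy a D.N with h | h | h
    · refine ⟨[0], (D.ru_res b a h _).2 ⟨by simp, ?_, by simp [M]⟩⟩
      intro x hx
      rw [List.mem_singleton] at hx
      subst hx
      exact D.N_pos
    · exact ⟨[a], D.ru_keep b a (Or.inr h)⟩
    · have : a = D.N + 1 := by omega
      subst this
      exact ⟨_, (D.ru_t b _).2 (Or.inr (Or.inl (Or.inl rfl)))⟩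
  · exact ⟨[a], D.ru_keep b a (Or.inl ha)⟩

/-- the invariant of the words after the growth letter -/
def Inv (u : List K) (v : List ℕ) : Prop :=
  ∃ v' z, v = v' ++ [z] ∧ (∀ a ∈ v', a < D.N ∨ D.isK a) ∧
    (z < D.N ∨ (z = D.N ∧ ((∃ a ∈ v', a < D.N) ∨ ∃ w : List K, v' = (w ++ u).map D.enc)))

theorem shape_of_inv (u : List K) (v : List ℕ) (h : D.Inv u v) : Shape D.N D.isK D.N v := by
  obtain ⟨v', z, rfl, h1, h2⟩ := h
  have hz : z < D.N ∨ z = D.N := by
    rcases h2 with h2 | ⟨h2, -⟩
    · exact Or.inl h2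
    · exact Or.inr h2
  clear h2
  induction v' with
  | nil =>
    rcases hz with hz | rfl
    · exact Shape.res hz
    · exact Shape.endc
  | cons a v' ih =>
    rcases h1 a List.mem_cons_self with ha | ha
    · exact Shape.res ha
    · exact Shape.cons ha (ih (fun b hb => h1 b (List.mem_cons_of_mem _ hb)))

theorem pure_of_inv (u w : List K) (h : D.Inv u (w.map D.enc ++ [D.N])) :
    ∃ w', w = w' ++ u := by
  obtain ⟨v', z, h0, h1, h2⟩ := h
  have h3 := List.append_inj' h0 rfl
  have hz : D.N = z := by simpa using h3.2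
  subst hz
  rw [← h3.1] at h2
  rcases h2 with h2 | ⟨-, ⟨a, ha, ha2⟩ | ⟨w', hw'⟩⟩
  · omega
  · rw [List.mem_map] at ha
    obtain ⟨k, -, rfl⟩ := ha
    have := D.enc_ge k
    omega
  · exact ⟨w', (List.map_injective_iff.2 D.enc_inj) hw'⟩

theorem word_last (s : List ℕ) (hs : s ≠ []) : ∃ s' z, s = s' ++ [z] :=
  ⟨s.dropLast, s.getLast hs, (List.dropLast_append_getLast hs).symm⟩

theorem hv_letters (b : Prop) (v s : List ℕ) (hv : ∀ a ∈ v, a < D.N ∨ D.isK a)
    (h : HV (D.Ru b) v s) : ∀ a ∈ s, a < D.N ∨ D.isK a := by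
  induction h with
  | nil => intro a ha; simp at ha
  | @cons a v w s h1 h2 ih =>
    intro x hx
    rcases List.mem_append.1 hx with hx | hx
    · rcases hv a List.mem_cons_self with ha | ha
      · left
        exact ((D.ru_res b a ha w).1 h1).2.1 x hx
      · obtain ⟨-, ⟨r, rfl, hr⟩ | ⟨-, h3, -⟩⟩ := (D.ru_K b a (Or.inl ha) w).1 h1
        · rcases List.mem_append.1 hx with hx | hx
          · left; exact hr x hx
          · rw [List.mem_singleton] at hx
            rw [hx]
            right; exact ha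
        · left; exact h3 x hx
    · exact ih (fun b hb => hv b (List.mem_cons_of_mem _ hb)) x hx

theorem hv_residue (b : Prop) (v s : List ℕ) (hv : ∃ a ∈ v, a < D.N)
    (h : HV (D.Ru b) v s) : ∃ a ∈ s, a < D.N := by
  induction h with
  | nil => obtain ⟨a, ha, -⟩ := hv; simp at ha
  | @cons a v w s h1 h2 ih =>
    obtain ⟨x, hx, hx2⟩ := hv
    rcases List.mem_cons.1 hx with rfl | hx
    · obtain ⟨h3, h4, -⟩ := (D.ru_res b x hx2 w).1 h1
      obtain ⟨y, w', rfl⟩ : ∃ y w', w = y :: w' := List.exists_cons_of_ne_nil h3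
      exact ⟨y, by simp, h4 y (by simp)⟩
    · obtain ⟨y, hy, hy2⟩ := ih ⟨x, hx, hx2⟩
      exact ⟨y, List.mem_append_right _ hy, hy2⟩

theorem hv_pure (b : Prop) (w : List K) (s : List ℕ)
    (h : HV (D.Ru b) (w.map D.enc) s) : s = w.map D.enc ∨ ∃ a ∈ s, a < D.N := by
  induction w generalizing s with
  | nil => cases h; exact Or.inl rfl
  | cons k w ih =>
    rw [List.map_cons] at h
    obtain ⟨w', s', h1, h2, rfl⟩ := hv_cons.1 h
    obtain ⟨-, ⟨r, rfl, hr⟩ | ⟨h3, h4, -⟩⟩ := (D.ru_K b _ (Or.inl ⟨k, rfl⟩) w').1 h1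
    · cases r with
      | nil =>
        rcases ih s' h2 with rfl | ⟨a, ha, ha2⟩
        · left; rfl
        · right; exact ⟨a, by simp [ha], ha2⟩
      | cons y r => right; exact ⟨y, by simp, hr y (by simp)⟩
    · right
      obtain ⟨y, w'', rfl⟩ : ∃ y w'', w' = y :: w'' := List.exists_cons_of_ne_nil h3
      exact ⟨y, by simp, h4 y (by simp)⟩

theorem inv_step (b : Prop) (u : List K) (k : K) (v s : List ℕ) (hv : D.Inv u v)
    (h : HV (D.Ru b) v s) : D.Inv u (D.enc k :: s) := by
  obtain ⟨v', z, rfl, h1, h2⟩ := hv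
  obtain ⟨s1, s2, h3, h4, rfl⟩ := hv_append_inv h
  obtain ⟨w2, s2', h5, h6, rfl⟩ := hv_cons.1 h4
  cases h6
  rw [List.append_nil]
  have hs1 := D.hv_letters b v' s1 h1 h3
  -- the case where the last word consists of residues
  have hres : w2 ≠ [] → (∀ x ∈ w2, x < D.N) → D.Inv u (D.enc k :: (s1 ++ w2)) := by
    intro hne hlt
    obtain ⟨w3, y, rfl⟩ := word_last w2 hne
    refine ⟨D.enc k :: (s1 ++ w3), y, by simp, ?_, Or.inl (hlt y (by simp))⟩
    intro a ha
    rcases List.mem_cons.1 ha with rfl | ha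
    · right; exact ⟨k, rfl⟩
    · rcases List.mem_append.1 ha with ha | ha
      · exact hs1 a ha
      · left; exact hlt a (by simp [ha])
  rcases h2 with h2 | ⟨rfl, h2⟩
  · obtain ⟨h7, h8, -⟩ := (D.ru_res b z h2 w2).1 h5
    exact hres h7 h8
  · obtain ⟨-, ⟨r, rfl, hr⟩ | ⟨h7, h8, -⟩⟩ := (D.ru_K b _ (Or.inr rfl) w2).1 h5
    · refine ⟨D.enc k :: (s1 ++ r), D.N, by simp, ?_, Or.inr ⟨rfl, ?_⟩⟩
      · intro a ha
        rcases List.mem_cons.1 ha with rfl | ha
        · right; exact ⟨k, rfl⟩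
        · rcases List.mem_append.1 ha with ha | ha
          · exact hs1 a ha
          · left; exact hr a ha
      · cases r with
        | cons y r => left; exact ⟨y, by simp, hr y (by simp)⟩
        | nil =>
          rcases h2 with h2 | ⟨w, rfl⟩
          · left
            obtain ⟨a, ha, ha2⟩ := D.hv_residue b v' s1 h2 h3
            exact ⟨a, by simp [ha], ha2⟩
          · rcases D.hv_pure b _ s1 h3 with rfl | ⟨a, ha, ha2⟩
            · right; exact ⟨k :: w, by simp⟩
            · left; exact ⟨a, by simp [ha], ha2⟩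
    · exact hres h7 h8

theorem inv_no_t (u : List K) (v : List ℕ) (hv : D.Inv u v) : ∀ a ∈ v, a ≠ D.N + 1 := by
  obtain ⟨v', z, rfl, h1, h2⟩ := hv
  intro a ha
  rcases List.mem_append.1 ha with ha | ha
  · rcases h1 a ha with h | ⟨k, rfl⟩
    · omega
    · have := D.enc_ge k
      omega
  · rw [List.mem_singleton] at ha
    subst ha
    rcases h2 with h2 | ⟨rfl, -⟩ <;> omega

theorem ru_no_t (b : Prop) (a : ℕ) (w : List ℕ) (ha : a ≠ D.N + 1) (h : D.Ru b a w) :
    ∀ x ∈ w, x ≠ D.N + 1 := by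
  intro x hx
  rcases h with ⟨-, -, h, -⟩ | ⟨h0, -, ⟨r, rfl, hr⟩ | ⟨-, h, -⟩⟩ | ⟨h, -⟩
  · have := h x hx; omega
  · rcases List.mem_append.1 hx with hx | hx
    · have := hr x hx; omega
    · rw [List.mem_singleton] at hx
      rw [hx]
      exact ha
  · have := h x hx; omega
  · exact absurd h ha

theorem a1_no_t (w : List ℕ) (h : D.A1 w) : ∀ x ∈ w, x ≠ D.N + 1 := by
  intro x hx
  rcases h with rfl | rfl | ⟨q, -, rfl⟩ | ⟨p, rfl, -, hp, -⟩
  · have := mem_rn_lt D.N_pos hx; omega
  · have := mem_rn_lt D.N_pos hx; omega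
  · have := mem_rn_lt D.N_pos hx; omega
  · rcases List.mem_append.1 hx with hx | hx
    · have := mem_rn_lt D.N_pos hx; omega
    · have := hp x hx; omega

/-- the axiom -/
def om (u : List K) : List ℕ := (D.N + 1) :: (u.map D.enc ++ [D.N])

theorem reach_inv (u : List K) (x : List ℕ)
    (h : Relation.ReflTransGen (HV (D.Ru False)) (D.om u) x) :
    (∃ v, x = (D.N + 1) :: v ∧ D.Inv u v) ∨ (∀ a ∈ x, a ≠ D.N + 1) := by
  induction h with
  | refl =>
    left
    refine ⟨_, rfl, _, _, rfl, ?_, Or.inr ⟨rfl, Or.inr ⟨[], rfl⟩⟩⟩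
    intro a ha
    rw [List.mem_map] at ha
    obtain ⟨k, -, rfl⟩ := ha
    exact Or.inr ⟨k, rfl⟩
  | @tail x y _ hxy ih =>
    rcases ih with ⟨v, rfl, hv⟩ | hx
    · obtain ⟨w, s, h1, h2, rfl⟩ := hv_cons.1 hxy
      rw [D.ru_t] at h1
      rcases h1 with ⟨k, rfl⟩ | h1 | ⟨h1, -⟩
      · left
        exact ⟨D.enc k :: s, rfl, D.inv_step False u k v s hv h2⟩
      · right
        intro a ha
        rcases List.mem_append.1 ha with ha | ha
        · exact D.a1_no_t w h1 a ha
        · exact HV.mem (P := fun a => a ≠ D.N + 1) (fun a w ha h => D.ru_no_t False a w ha h) h2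
            (D.inv_no_t u v hv) a ha
      · exact absurd h1 not_false
    · right
      exact HV.mem (P := fun a => a ≠ D.N + 1) (fun a w ha h => D.ru_no_t False a w ha h) hxy hx

theorem hv_keep (b : Prop) (v : List ℕ) (hv : ∀ a ∈ v, D.isK a ∨ a = D.N) :
    HV (D.Ru b) v v := by
  induction v with
  | nil => exact HV.nil
  | cons a v ih =>
    exact HV.cons (w := [a]) (D.ru_keep b a (hv a List.mem_cons_self))
      (ih (fun c hc => hv c (List.mem_cons_of_mem _ hc)))

theorem pure_mem (w : List K) : ∀ a ∈ w.map D.enc ++ [D.N], D.isK a ∨ a = D.N := by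
  intro a ha
  rcases List.mem_append.1 ha with ha | ha
  · rw [List.mem_map] at ha
    obtain ⟨k, -, rfl⟩ := ha
    exact Or.inl ⟨k, rfl⟩
  · rw [List.mem_singleton] at ha
    exact Or.inr ha

theorem reach_pure (u w : List K) :
    Relation.ReflTransGen (HV (D.Ru False)) (D.om u) (D.om (w ++ u)) := by
  induction w with
  | nil => exact Relation.ReflTransGen.refl
  | cons k w ih =>
    refine ih.tail ?_
    have := HV.cons (Rl := D.Ru False) (a := D.N + 1) (w := [D.N + 1, D.enc k])
      ((D.ru_t False _).2 (Or.inl ⟨k, rfl⟩))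
      (D.hv_keep False ((w ++ u).map D.enc ++ [D.N]) (D.pure_mem _))
    simpa [om] using this

theorem hv_attack (w : List K) : HV (D.Ru True) (w.map D.enc ++ [D.N])
    (rn D.N 2 ((w.length + 1) * D.L)) := by
  have hN6 := D.N_ge
  have hLN := D.L_ge
  have hrule : ∀ x, (D.isK x ∨ x = D.N) → D.Ru True x (rn D.N 2 D.L) := by
    intro x hx
    rw [D.ru_K True x hx]
    refine ⟨by simp [M]; omega, Or.inr ⟨?_, fun a ha => mem_rn_lt D.N_pos ha, ?_⟩⟩
    · intro h
      have := congrArg List.length h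
      simp at this
      omega
    · intro p hp _
      rw [rn_length] at hp ⊢
      have e1 : 2 % D.N = p % D.N := by
        refine rn_head (s := []) (s' := []) (l := D.L) (l' := D.L) ?_ (by omega) (by omega)
        rw [← hp]
      rw [← e1, Nat.mod_eq_of_lt (by omega)]
      rcases hx with ⟨k, rfl⟩ | rfl
      · rw [D.md_enc]
        exact Or.inl ⟨rfl, Or.inr (Or.inl rfl)⟩
      · rw [D.md_N]
        exact Or.inl ⟨rfl, rfl⟩
  induction w with
  | nil =>
    have := HV.cons (hrule D.N (Or.inr rfl)) (HV.nil (Rl := D.Ru True))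
    simpa using this
  | cons k w ih =>
    have h1 := HV.cons (hrule (D.enc k) (Or.inl ⟨k, rfl⟩)) ih
    rw [List.map_cons, List.cons_append]
    have e1 : rn D.N 2 ((w.length + 1) * D.L) = rn D.N (2 + D.L) ((w.length + 1) * D.L) := by
      apply rn_congr
      obtain ⟨j, hj⟩ := D.L_dvd
      rw [hj]
      simp
    rw [e1, ← rn_add] at h1
    have e2 : D.L + (w.length + 1) * D.L = ((k :: w).length + 1) * D.L := by
      simp only [List.length_cons]
      ring
    rw [e2] at h1
    exact h1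

theorem main_iff (u : List K) :
    Sq (D.Ru False) (D.om u) = Sq (D.Ru True) (D.om u) ↔ ∀ w : List K, D.A.Acc (w ++ u) := by
  rw [sq_eq_iff (P := D.Dom)
    (by
      rintro a w (h | h | ⟨h1, h | h | ⟨h, -⟩⟩)
      · exact Or.inl h
      · exact Or.inr (Or.inl h)
      · exact Or.inr (Or.inr ⟨h1, Or.inl h⟩)
      · exact Or.inr (Or.inr ⟨h1, Or.inr (Or.inl h)⟩)
      · exact absurd h not_false)
    (fun a w _ h => D.ru_dom True a w h) (fun a h => D.ru_tot True a h)]
  · constructor
    · intro h w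
      have h1 := h _ (D.reach_pure u w) (rn D.N 0 (D.N + 2) ++
        rn D.N 2 (((w ++ u).length + 1) * D.L)) (by
          refine HV.cons ((D.ru_t True _).2 (Or.inr (Or.inr ⟨trivial, rfl⟩))) ?_
          exact D.hv_attack (w ++ u))
      obtain ⟨a, s, h2, h3, h4⟩ := hv_cons.1 h1
      exact D.backward (w ++ u) a s h2 h3 h4
    · intro h x hx z hz
      -- rules other than the additional one are common
      have hcommon : ∀ v s, (∀ a ∈ v, a ≠ D.N + 1) → HV (D.Ru True) v s →
          HV (D.Ru False) v s := by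
        intro v s hv hs
        induction hs with
        | nil => exact HV.nil
        | @cons a v w s h1 h2 ih =>
          refine HV.cons ?_ (ih (fun b hb => hv b (List.mem_cons_of_mem _ hb)))
          rcases h1 with h1 | h1 | ⟨h1, -⟩
          · exact Or.inl h1
          · exact Or.inr (Or.inl h1)
          · exact absurd h1 (hv a List.mem_cons_self)
      rcases D.reach_inv u x hx with ⟨v, rfl, hv⟩ | hx
      · obtain ⟨y, s, h1, h2, rfl⟩ := hv_cons.1 hz
        have h2' := hcommon v s (D.inv_no_t u v hv) h2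
        rw [D.ru_t] at h1
        rcases h1 with h1 | h1 | ⟨-, rfl⟩
        · exact HV.cons ((D.ru_t False _).2 (Or.inl h1)) h2'
        · exact HV.cons ((D.ru_t False _).2 (Or.inr (Or.inl h1))) h2'
        · obtain ⟨a, s', h3, h4, h5⟩ := D.forward False v s (D.shape_of_inv u v hv) (by
            rintro w rfl
            obtain ⟨w', rfl⟩ := D.pure_of_inv u w hv
            exact h w') h2'
          rw [h5]
          exact HV.cons ((D.ru_t False _).2 (Or.inr (Or.inl h3))) h4
      · exact hcommon x z hx hz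
  · intro a ha
    rw [om, List.mem_cons] at ha
    rcases ha with rfl | ha
    · left; omega
    · rcases D.pure_mem u a ha with h | rfl
      · exact Or.inr h
      · left; omega

/-- the rules form a finite set -/
theorem ru_finite (b : Prop) : {p : ℕ × List ℕ | D.Ru b p.1 p.2}.Finite := by
  have hbound : ∃ C, ∀ a w, D.Ru b a w → a < C ∧ w.length < C ∧ ∀ x ∈ w, x < C := by
    refine ⟨D.M + 5 * D.N + D.m + 10, ?_⟩
    intro a w h
    have hN := D.N_ge
    have hdom := D.ru_dom b a w h
    refine ⟨?_, ?_, ?_⟩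
    · rcases h with ⟨h, -⟩ | ⟨⟨k, rfl⟩ | rfl, -⟩ | ⟨rfl, -⟩
      · omega
      · have := D.en_lt k
        simp only [enc]
        omega
      · omega
      · omega
    · rcases h with ⟨-, -, -, h⟩ | ⟨-, h, -⟩ | ⟨-, ⟨k, rfl⟩ | h | ⟨-, rfl⟩⟩
      · omega
      · omega
      · simp
      · rcases h with rfl | rfl | ⟨q, -, rfl⟩ | ⟨p, rfl, h, -, -⟩
        · simp; omega
        · simp; omega
        · have := D.idx_lt q
          have : D.N = 2 * D.n + 6 := rfl
          rw [rn_length]
          omega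
        · rw [List.length_append, rn_length]
          omega
      · rw [rn_length]; omega
    · intro x hx
      rcases hdom x hx with h | ⟨k, rfl⟩
      · omega
      · have := D.en_lt k
        simp only [enc]
        omega
  obtain ⟨C, hC⟩ := hbound
  have hfin : {w : List ℕ | w.length < C ∧ ∀ x ∈ w, x < C}.Finite := by
    have h1 : {l : List (Fin C) | l.length < C}.Finite := List.finite_length_lt (Fin C) C
    refine (h1.image (List.map (fun i : Fin C => (i : ℕ)))).subset ?_
    rintro w ⟨h2, h3⟩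
    refine ⟨w.pmap (fun x hx => (⟨x, hx⟩ : Fin C)) h3, ?_, ?_⟩
    · simpa using h2
    · rw [List.map_pmap]
      simp
  refine ((Set.finite_lt_nat C).prod hfin).subset ?_
  rintro ⟨a, w⟩ h
  obtain ⟨h1, h2, h3⟩ := hC a w h
  exact ⟨h1, h2, h3⟩

end Cod

end Pool.Agent.Helper844.OL
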